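import Pool.Agent.H677.SC.Conc
import Pool.Agent.H677.JK.Red

/-!
# The reduction on adjacency matrices
-/

set_option autoImplicit false
set_option linter.unusedSectionVars false

namespace Pool.Agent.NPC.SC677

open Finset Pool.Agent.H677.FE Pool.Agent.NPC.UB129 Pool.Agent.NPC.R671 Pool.Agent.NPC.FE677
  Pool.Agent.H677.JS Pool.Agent.H677.JK Pool.Agent.NPC.JS677 Pool.Agent.NPC.JK677
  Pool.Agent.H677.SC

/-! ### Increasing lists of bounded length -/

/-- The increasing lists of at most `k` numbers below `m`. -/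
def subl (m : ℕ) : ℕ → List (List ℕ)
  | 0 => combs m 0
  | k + 1 => subl m k ++ combs m (k + 1)

theorem mem_subl {m k : ℕ} {l : List ℕ} :
    l ∈ subl m k ↔ l.length ≤ k ∧ l.Pairwise (· < ·) ∧ ∀ x ∈ l, x < m := by
  induction k with
  | zero =>
    rw [subl, mem_combs]
    constructor
    · rintro ⟨h1, h2, h3⟩
      exact ⟨h1.le, h2, h3⟩
    · rintro ⟨h1, h2, h3⟩
      exact ⟨Nat.le_zero.1 h1, h2, h3⟩
  | succ k ih =>
    rw [subl, List.mem_append, ih, mem_combs]
    constructor
    · rintro (⟨h1, h2, h3⟩ | ⟨h1, h2, h3⟩)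
      · exact ⟨h1.trans (Nat.le_succ k), h2, h3⟩
      · exact ⟨h1.le, h2, h3⟩
    · rintro ⟨h1, h2, h3⟩
      rcases Nat.le_succ_iff.1 h1 with h | h
      · exact Or.inl ⟨h, h2, h3⟩
      · exact Or.inr ⟨h, h2, h3⟩

theorem nodup_subl (m k : ℕ) : (subl m k).Nodup := by
  induction k with
  | zero => exact nodup_combs m 0
  | succ k ih =>
    rw [subl, List.nodup_append']
    refine ⟨ih, nodup_combs m (k + 1), fun l h1 h2 => ?_⟩
    have h3 := (mem_subl.1 h1).1
    have h4 := (mem_combs.1 h2).1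
    omega

theorem pts_inj {m : ℕ} {l l' : List ℕ} (h1 : l.Pairwise (· < ·)) (h2 : ∀ x ∈ l, x < m)
    (h1' : l'.Pairwise (· < ·)) (h2' : ∀ x ∈ l', x < m) (he : pts m l = pts m l') : l = l' := by
  have hmem : ∀ x, x ∈ l ↔ x ∈ l' := by
    intro x
    constructor
    · intro hx
      have h3 : (⟨x, h2 x hx⟩ : Fin m) ∈ pts m l := mem_pts.2 hx
      rw [he] at h3
      exact mem_pts.1 h3
    · intro hx
      have h3 : (⟨x, h2' x hx⟩ : Fin m) ∈ pts m l' := mem_pts.2 hx
      rw [← he] at h3
      exact mem_pts.1 h3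
  have hp : l.Perm l' :=
    (List.perm_ext_iff_of_nodup (h1.imp fun h => h.ne) (h1'.imp fun h => h.ne)).2 hmem
  exact hp.eq_of_pairwise (fun a b _ _ h3 h4 => absurd h3 (lt_asymm h4)) h1 h1'

/-! ### The code of a point -/

/-- The set of `K`-subsets. -/
def bB (K : ℕ) (M : Mat) (l : List ℕ) : Bool :=
  ((List.range (K - 2)).all fun q => decide (M.length + q ∈ l)) &&
    ((List.range M.length).any fun u => (List.range M.length).any fun w =>
      ent M u w && (decide (u ∈ l) && decide (w ∈ l)))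

/-- The conditions for a labelling. -/
def okB (K : ℕ) (M : Mat) (l a : List ℕ) : Bool :=
  (a.all fun x => decide (x ∈ l)) && !(decide (a.length % 2 = 1) ^^ bB K M l)

/-- The codes of the points. -/
def codes (K : ℕ) (M : Mat) : List (List ℕ × List ℕ) :=
  (combs (M.length + ex K M.length) K).flatMap fun l =>
    ((subl (M.length + ex K M.length) K).filter fun a => okB K M l a).map fun a => (l, a)

theorem mem_codes {K : ℕ} {M : Mat} {x : List ℕ × List ℕ} :
    x ∈ codes K M ↔ x.1 ∈ combs (M.length + ex K M.length) K ∧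
      x.2 ∈ subl (M.length + ex K M.length) K ∧ okB K M x.1 x.2 = true := by
  unfold codes
  rw [List.mem_flatMap]
  constructor
  · rintro ⟨l, hl, h⟩
    rw [List.mem_map] at h
    obtain ⟨a, ha, rfl⟩ := h
    rw [List.mem_filter] at ha
    exact ⟨hl, ha.1, ha.2⟩
  · rintro ⟨h1, h2, h3⟩
    refine ⟨x.1, h1, ?_⟩
    rw [List.mem_map]
    exact ⟨x.2, List.mem_filter.2 ⟨h2, h3⟩, rfl⟩

theorem nodup_codes (K : ℕ) (M : Mat) : (codes K M).Nodup := by
  unfold codes
  rw [List.nodup_flatMap]
  refine ⟨fun l _ => ?_, ?_⟩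
  · refine List.Nodup.map (fun a a' h => ?_) ((nodup_subl _ _).filter _)
    injection h
  · refine List.Pairwise.imp_of_mem ?_ (nodup_combs (M.length + ex K M.length) K)
    intro l l' _ _ hne x h1 h2
    rw [List.mem_map] at h1 h2
    obtain ⟨a, _, rfl⟩ := h1
    obtain ⟨a', _, h2⟩ := h2
    injection h2 with h2 _
    exact hne h2.symm

theorem bB_iff {K n : ℕ} (G : SimpleGraph (Fin n)) {l : List ℕ} :
    bB K (adjMatrix G) l = true ↔ bs K G (pts (n + ex K n) l) := by
  unfold bB bs bG
  rw [Bool.and_eq_true, List.all_eq_true, List.any_eq_true, length_adjMatrix]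
  refine and_congr ?_ ?_
  · constructor
    · intro h p hp
      rw [mem_pts]
      have h1 := (mem_filter.1 hp).2
      have h2 := h ((p : ℕ) - n) (List.mem_range.2 (by omega))
      have h3 := of_decide_eq_true h2
      rw [Nat.add_sub_cancel' h1.1] at h3
      exact h3
    · intro h q hq
      rw [List.mem_range] at hq
      have hlt : n + q < n + ex K n := by
        unfold ex
        generalize 16 ^ K = c
        omega
      have h1 : (⟨n + q, hlt⟩ : Fin (n + ex K n)) ∈ Qs K n := by
        refine mem_filter.2 ⟨mem_univ _, ?_⟩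
        simp only
        omega
      exact decide_eq_true (mem_pts.1 (h h1))
  · constructor
    · rintro ⟨u, hu, h⟩
      rw [List.any_eq_true] at h
      obtain ⟨w, hw, h⟩ := h
      rw [List.mem_range] at hu hw
      rw [Bool.and_eq_true, Bool.and_eq_true] at h
      have h1 := (ent_adjMatrix G ⟨u, hu⟩ ⟨w, hw⟩).1 h.1
      exact ⟨⟨u, hu⟩, ⟨w, hw⟩, h1, mem_pts.2 (of_decide_eq_true h.2.1),
        mem_pts.2 (of_decide_eq_true h.2.2)⟩
    · rintro ⟨u, w, huw, hu, hw⟩
      refine ⟨u, List.mem_range.2 u.isLt, ?_⟩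
      rw [List.any_eq_true]
      refine ⟨w, List.mem_range.2 w.isLt, ?_⟩
      rw [Bool.and_eq_true, Bool.and_eq_true]
      have hu' : ((es K n u : Fin (n + ex K n)) : ℕ) ∈ l := mem_pts.1 hu
      have hw' : ((es K n w : Fin (n + ex K n)) : ℕ) ∈ l := mem_pts.1 hw
      exact ⟨(ent_adjMatrix G u w).2 huw, decide_eq_true hu', decide_eq_true hw'⟩

theorem lt_of_mem_subl {m k : ℕ} {l : List ℕ} (h : l ∈ subl m k) {x : ℕ} (hx : x ∈ l) : x < m :=
  (mem_subl.1 h).2.2 x hx

theorem nodup_of_mem_subl {m k : ℕ} {l : List ℕ} (h : l ∈ subl m k) : l.Nodup :=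
  (mem_subl.1 h).2.1.imp fun h => h.ne

theorem card_pts_subl {m k : ℕ} {l : List ℕ} (h : l ∈ subl m k) : (pts m l).card = l.length :=
  card_pts (fun _ hx => lt_of_mem_subl h hx) (nodup_of_mem_subl h)

theorem exists_list {m : ℕ} (A : Finset (Fin m)) :
    ∃ l : List ℕ, l.Pairwise (· < ·) ∧ (∀ x ∈ l, x < m) ∧ pts m l = A := by
  obtain ⟨l, hl, hA⟩ := exists_combs (⟨A, rfl⟩ : Sb (Fin m) A.card)
  exact ⟨l, (mem_combs.1 hl).2.1, (mem_combs.1 hl).2.2, hA⟩

theorem all_iff_sub {m : ℕ} {l a : List ℕ} (ha : ∀ x ∈ a, x < m) :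
    (a.all fun x => decide (x ∈ l)) = true ↔ pts m a ⊆ pts m l := by
  rw [List.all_eq_true]
  constructor
  · intro h p hp
    rw [mem_pts] at hp ⊢
    exact of_decide_eq_true (h p hp)
  · intro h p hp
    have h1 : (⟨p, ha p hp⟩ : Fin m) ∈ pts m a := mem_pts.2 hp
    exact decide_eq_true (mem_pts.1 (h h1))

theorem okB_iff {K n : ℕ} (G : SimpleGraph (Fin n)) {l a : List ℕ}
    (ha : a.Pairwise (· < ·)) (ha' : ∀ x ∈ a, x < n + ex K n) :
    okB K (adjMatrix G) l a = true ↔ pts (n + ex K n) a ⊆ pts (n + ex K n) l ∧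
      (Odd (pts (n + ex K n) a).card ↔ bs K G (pts (n + ex K n) l)) := by
  unfold okB
  rw [Bool.and_eq_true, all_iff_sub ha']
  refine and_congr Iff.rfl ?_
  rw [card_pts ha' (ha.imp fun h => h.ne), Nat.odd_iff, ← bB_iff]
  by_cases h1 : a.length % 2 = 1
  · rw [decide_eq_true h1]
    cases bB K (adjMatrix G) l <;> simp [h1]
  · rw [decide_eq_false h1]
    cases bB K (adjMatrix G) l <;> simp [h1]

/-- The number of the vertices. -/
noncomputable def numC (K n : ℕ) (G : SimpleGraph (Fin n)) : ℕ := (codes K (adjMatrix G)).length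

/-- The point of a number. -/
noncomputable def tr (K n : ℕ) (G : SimpleGraph (Fin n)) (s : Fin (numC K n G)) :
    Pt K (bs K G) :=
  have h := mem_codes.1 (List.getElem_mem (l := codes K (adjMatrix G)) s.isLt)
  have hl := length_adjMatrix G
  { T := pts (n + ex K n) ((codes K (adjMatrix G))[s]).1
    A := pts (n + ex K n) ((codes K (adjMatrix G))[s]).2
    hT := by
      have h1 := h.1
      rw [hl] at h1
      exact card_pts_combs h1
    hA := by
      have h1 := h.2.1
      rw [hl] at h1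
      exact ((okB_iff G (mem_subl.1 h1).2.1 (mem_subl.1 h1).2.2).1 h.2.2).1
    odd := by
      have h1 := h.2.1
      rw [hl] at h1
      exact ((okB_iff G (mem_subl.1 h1).2.1 (mem_subl.1 h1).2.2).1 h.2.2).2 }

theorem tr_bijective (K n : ℕ) (G : SimpleGraph (Fin n)) : Function.Bijective (tr K n G) := by
  have hl := length_adjMatrix G
  constructor
  · intro s t h
    have h1 := mem_codes.1 (List.getElem_mem (l := codes K (adjMatrix G)) s.isLt)
    have h2 := mem_codes.1 (List.getElem_mem (l := codes K (adjMatrix G)) t.isLt)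
    rw [hl] at h1 h2
    have e1 := pts_combs_inj h1.1 h2.1 (congrArg Pt.T h)
    have e2 := pts_inj (mem_subl.1 h1.2.1).2.1 (mem_subl.1 h1.2.1).2.2 (mem_subl.1 h2.2.1).2.1
      (mem_subl.1 h2.2.1).2.2 (congrArg Pt.A h)
    exact Fin.ext ((List.Nodup.getElem_inj_iff (nodup_codes K (adjMatrix G))).1 (Prod.ext e1 e2))
  · intro x
    obtain ⟨l, hl1, hT⟩ := exists_combs (⟨x.T, x.hT⟩ : Sb (Fin (n + ex K n)) K)
    obtain ⟨a, ha, ha', hA⟩ := exists_list x.A
    have hmem : (l, a) ∈ codes K (adjMatrix G) := by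
      rw [mem_codes, hl]
      refine ⟨hl1, mem_subl.2 ⟨?_, ha, ha'⟩, (okB_iff G ha ha').2 ?_⟩
      · rw [← card_pts ha' (ha.imp fun h => h.ne), hA]
        exact (card_le_card x.hA).trans x.hT.le
      · rw [hA]
        show x.A ⊆ pts (n + ex K n) l ∧ (Odd x.A.card ↔ bs K G (pts (n + ex K n) l))
        rw [hT]
        exact ⟨x.hA, x.odd⟩
    obtain ⟨i, hi, h2⟩ := List.getElem_of_mem hmem
    refine ⟨⟨i, hi⟩, Pt.ext ?_ ?_⟩
    · show pts (n + ex K n) ((codes K (adjMatrix G))[i]).1 = x.T
      rw [h2]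
      exact hT
    · show pts (n + ex K n) ((codes K (adjMatrix G))[i]).2 = x.A
      rw [h2]
      exact hA

/-- The numbering. -/
noncomputable def trE (K n : ℕ) (G : SimpleGraph (Fin n)) : Fin (numC K n G) ≃ Pt K (bs K G) :=
  Equiv.ofBijective (tr K n G) (tr_bijective K n G)

/-! ### Adjacency -/

/-- The test for adjacency. -/
def adjC (K : ℕ) (x y : List ℕ × List ℕ) : Bool :=
  decide ((x.1.filter fun i => decide (i ∈ y.1)).length + 1 = K) &&
    !((x.1.all fun i => decide (i ∈ y.1) || decide (i ∈ x.2)) ^^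
      (y.1.all fun i => decide (i ∈ x.1) || decide (i ∈ y.2)))

theorem all_iff_sdiff {m : ℕ} {l u a : List ℕ} (hl : ∀ x ∈ l, x < m) :
    (l.all fun i => decide (i ∈ u) || decide (i ∈ a)) = true ↔
      pts m l \ pts m u ⊆ pts m a := by
  rw [List.all_eq_true]
  constructor
  · intro h p hp
    rw [mem_sdiff, mem_pts, mem_pts] at hp
    rw [mem_pts]
    have h1 := h p hp.1
    rw [Bool.or_eq_true, decide_eq_true_eq, decide_eq_true_eq] at h1
    exact h1.resolve_left hp.2
  · intro h p hp
    rw [Bool.or_eq_true, decide_eq_true_eq, decide_eq_true_eq]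
    by_cases hu : p ∈ u
    · exact Or.inl hu
    · right
      have h1 : (⟨p, hl p hp⟩ : Fin m) ∈ pts m l \ pts m u := by
        rw [mem_sdiff, mem_pts, mem_pts]
        exact ⟨hp, hu⟩
      exact mem_pts.1 (h h1)

theorem card_inter_pts {m : ℕ} {l u : List ℕ} (h : l.Pairwise (· < ·)) (hl : ∀ x ∈ l, x < m) :
    (l.filter fun i => decide (i ∈ u)).length = (pts m l ∩ pts m u).card := by
  have h1 : pts m l ∩ pts m u = pts m (l.filter fun i => decide (i ∈ u)) := by
    ext p
    rw [mem_inter, mem_pts, mem_pts, mem_pts, List.mem_filter, decide_eq_true_eq]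
  rw [h1, card_pts]
  · intro x hx
    exact hl x (List.mem_filter.1 hx).1
  · exact (h.imp fun h => h.ne).filter _

theorem adjC_iff {K n : ℕ} (G : SimpleGraph (Fin n)) (s t : Fin (numC K n G)) :
    adjC K ((codes K (adjMatrix G))[s]) ((codes K (adjMatrix G))[t]) = true ↔
      (GS K G).Adj (tr K n G s) (tr K n G t) := by
  have hl := length_adjMatrix G
  have h1 := mem_codes.1 (List.getElem_mem (l := codes K (adjMatrix G)) s.isLt)
  have h2 := mem_codes.1 (List.getElem_mem (l := codes K (adjMatrix G)) t.isLt)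
  rw [hl] at h1 h2
  have a1 := (mem_combs.1 h1.1).2
  have a2 := (mem_combs.1 h2.1).2
  rw [sg_adj]
  unfold adjC Lab
  rw [Bool.and_eq_true, decide_eq_true_eq]
  refine and_congr ?_ ?_
  · exact iff_of_eq (congrArg (fun c => c + 1 = K) (card_inter_pts a1.1 a1.2))
  · have e1 := all_iff_sdiff (m := n + ex K n) (l := ((codes K (adjMatrix G))[s]).1)
      (u := ((codes K (adjMatrix G))[t]).1) (a := ((codes K (adjMatrix G))[s]).2) a1.2
    have e2 := all_iff_sdiff (m := n + ex K n) (l := ((codes K (adjMatrix G))[t]).1)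
      (u := ((codes K (adjMatrix G))[s]).1) (a := ((codes K (adjMatrix G))[t]).2) a2.2
    refine Iff.trans ?_ (iff_congr e1 e2)
    generalize (((codes K (adjMatrix G))[s]).1.all fun i =>
      decide (i ∈ ((codes K (adjMatrix G))[t]).1) || decide (i ∈ ((codes K (adjMatrix G))[s]).2)) = c
    generalize (((codes K (adjMatrix G))[t]).1.all fun i =>
      decide (i ∈ ((codes K (adjMatrix G))[s]).1) || decide (i ∈ ((codes K (adjMatrix G))[t]).2)) = d
    cases c <;> cases d <;> simp

/-- The graph on numbered vertices. -/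
noncomputable def TC (K n : ℕ) (G : SimpleGraph (Fin n)) : SimpleGraph (Fin (numC K n G)) :=
  (GS K G).comap (trE K n G)

/-- The numbering is an isomorphism. -/
noncomputable def TCiso (K n : ℕ) (G : SimpleGraph (Fin n)) : TC K n G ≃g GS K G :=
  SimpleGraph.Iso.comap (trE K n G) _

/-- The adjacency matrix of the graph of a graph. -/
def redC (K : ℕ) (M : Mat) : Mat :=
  (List.range (codes K M).length).map fun s => (List.range (codes K M).length).map fun t =>
    adjC K ((codes K M).getD s ([], [])) ((codes K M).getD t ([], []))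

theorem redC_adjMatrix (K n : ℕ) (G : SimpleGraph (Fin n)) :
    redC K (adjMatrix G) = adjMatrix (TC K n G) := by
  refine adjMatrix_of_test (TC K n G) (fun s t => adjC K ((codes K (adjMatrix G)).getD s ([], []))
    ((codes K (adjMatrix G)).getD t ([], []))) fun s t => ?_
  have hs : (s : ℕ) < (codes K (adjMatrix G)).length := s.isLt
  have ht : (t : ℕ) < (codes K (adjMatrix G)).length := t.isLt
  rw [List.getD_eq_getElem _ _ hs, List.getD_eq_getElem _ _ ht]
  exact adjC_iff G s t

/-! ### The reduction -/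

/-- The reduction on matrices. -/
def redS (K : ℕ) (M : Mat) : Mat := redC K (conesM M 3)

/-- The reduction on graphs. -/
noncomputable def TS (K n : ℕ) (G : SimpleGraph (Fin n)) :
    SimpleGraph (Fin (numC K (n + 3) (cones G 3))) := TC K _ (cones G 3)

theorem redS_adjMatrix (K n : ℕ) (G : SimpleGraph (Fin n)) :
    redS K (adjMatrix G) = adjMatrix (TS K n G) := by
  unfold redS TS
  rw [conesM_adjMatrix, redC_adjMatrix]

theorem TS_iff {K : ℕ} (hK : 3 ≤ K) (n n' : ℕ) (G : SimpleGraph (Fin n))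
    (H : SimpleGraph (Fin n')) : Nonempty (TS K n G ≃g TS K n' H) ↔ Nonempty (G ≃g H) := by
  rw [← GS_iff hK G H]
  constructor
  · rintro ⟨φ⟩
    exact ⟨((TCiso _ _ _).symm.trans φ).trans (TCiso _ _ _)⟩
  · rintro ⟨φ⟩
    exact ⟨((TCiso _ _ _).trans φ).trans (TCiso _ _ _).symm⟩

/-! ### Polynomial time -/

theorem upoly_m (K : ℕ) : UPoly (fun M : Mat => M.length + ex K M.length) := by
  unfold ex
  exact upoly_len.add ((upoly_len.add (UPoly.const (16 ^ K))).add (UPoly.const (2 * K)))

theorem poly_subl {α : Type} [TEnc α] {m : α → ℕ} (hm : UPoly m) (k : ℕ) :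
    Poly (fun a => subl (m a) k) := by
  induction k with
  | zero => exact poly_combs hm 0
  | succ k ih => exact ih.append (poly_combs hm (k + 1))

theorem poly_bB (K : ℕ) : Poly (fun p : Mat × List ℕ => bB K p.1 p.2) := by
  unfold bB
  have hr : Poly (fun p : Mat × List ℕ => List.range p.1.length) :=
    upoly_len.range.comp (Poly.fst Poly.id)
  have hlen : Poly (fun p : Mat × List ℕ => p.1.length) := upoly_len.toPoly.comp (Poly.fst Poly.id)
  refine Poly.and ?_ ?_
  · refine Poly.all (l := fun _ : Mat × List ℕ => List.range (K - 2))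
      (p := fun p q => decide (p.1.length + q ∈ p.2)) (Poly.const _) ?_
    refine Poly.decide_mem (f := fun x : (Mat × List ℕ) × ℕ => x.1.1.length + x.2)
      (l := fun x : (Mat × List ℕ) × ℕ => x.1.2) (Poly.add ?_ (Poly.snd Poly.id)) (by fun_prop)
    exact hlen.comp (Poly.fst Poly.id)
  · refine Poly.any (l := fun p : Mat × List ℕ => List.range p.1.length)
      (p := fun p u => (List.range p.1.length).any fun w =>
        ent p.1 u w && (decide (u ∈ p.2) && decide (w ∈ p.2))) hr ?_
    refine Poly.any (l := fun q : (Mat × List ℕ) × ℕ => List.range q.1.1.length)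
      (p := fun q w => ent q.1.1 q.2 w && (decide (q.2 ∈ q.1.2) && decide (w ∈ q.1.2)))
      (hr.comp (Poly.fst Poly.id)) ?_
    refine Poly.and ?_ (by fun_prop)
    exact poly_ent.comp (f := fun q : ((Mat × List ℕ) × ℕ) × ℕ => (q.1.1.1, q.1.2, q.2))
      (by fun_prop)

theorem poly_okB (K : ℕ) : Poly (fun p : Mat × List ℕ × List ℕ => okB K p.1 p.2.1 p.2.2) := by
  unfold okB
  refine Poly.and (by fun_prop) (Poly.not (Poly.xor ?_ ?_))
  · exact Poly.decide_eq (Poly.mod (Poly.length (by fun_prop)) (Poly.const 2)) (Poly.const 1)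
  · exact (poly_bB K).comp (f := fun p : Mat × List ℕ × List ℕ => (p.1, p.2.1)) (by fun_prop)

theorem poly_codes (K : ℕ) : Poly (codes K) := by
  unfold codes
  refine Poly.flatMap (l := fun M : Mat => combs (M.length + ex K M.length) K) (F := fun M l =>
    ((subl (M.length + ex K M.length) K).filter fun a => okB K M l a).map fun a => (l, a))
    (poly_combs (upoly_m K) K) ?_
  refine Poly.map (l := fun p : Mat × List ℕ =>
    (subl (p.1.length + ex K p.1.length) K).filter fun a => okB K p.1 p.2 a)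
    (F := fun p a => (p.2, a)) ?_ (by fun_prop)
  refine Poly.filter (l := fun p : Mat × List ℕ => subl (p.1.length + ex K p.1.length) K)
    (p := fun p a => okB K p.1 p.2 a) ((poly_subl (upoly_m K) K).comp (Poly.fst Poly.id)) ?_
  exact (poly_okB K).comp (f := fun q : (Mat × List ℕ) × List ℕ => (q.1.1, q.1.2, q.2))
    (by fun_prop)

theorem poly_adjC (K : ℕ) :
    Poly (fun p : (List ℕ × List ℕ) × (List ℕ × List ℕ) => adjC K p.1 p.2) := by
  unfold adjC
  refine Poly.and ?_ (Poly.not (Poly.xor (by fun_prop) (by fun_prop)))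
  refine Poly.decide_eq (Poly.add (Poly.length ?_) (Poly.const 1)) (Poly.const K)
  exact Poly.filter (l := fun p : (List ℕ × List ℕ) × (List ℕ × List ℕ) => p.1.1)
    (p := fun p i => decide (i ∈ p.2.1)) (by fun_prop) (by fun_prop)

theorem poly_redC (K : ℕ) : Poly (redC K) := by
  unfold redC
  have h1 : Poly (fun M : Mat => List.range (codes K M).length) :=
    (UPoly.length (poly_codes K)).range
  refine Poly.map (F := fun (M : Mat) s => (List.range (codes K M).length).map fun t =>
    adjC K ((codes K M).getD s ([], [])) ((codes K M).getD t ([], []))) h1 ?_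
  refine Poly.map (l := fun p : Mat × ℕ => List.range (codes K p.1).length)
    (F := fun (p : Mat × ℕ) t => adjC K ((codes K p.1).getD p.2 ([], []))
      ((codes K p.1).getD t ([], []))) (h1.comp (Poly.fst Poly.id)) ?_
  have hM : Poly (fun q : (Mat × ℕ) × ℕ => q.1.1) := by fun_prop
  have e1 : Poly (fun q : (Mat × ℕ) × ℕ => (codes K q.1.1).getD q.1.2 ([], [])) :=
    Poly.getD (d := fun _ => ([], [])) ((poly_codes K).comp hM) (by fun_prop) (Poly.const _)
  have e2 : Poly (fun q : (Mat × ℕ) × ℕ => (codes K q.1.1).getD q.2 ([], [])) :=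
    Poly.getD (d := fun _ => ([], [])) ((poly_codes K).comp hM) (by fun_prop) (Poly.const _)
  exact (poly_adjC K).comp (f := fun q : (Mat × ℕ) × ℕ =>
    ((codes K q.1.1).getD q.1.2 ([], []), (codes K q.1.1).getD q.2 ([], []))) (Poly.pair e1 e2)

theorem poly_redS (K : ℕ) : Poly (redS K) := (poly_redC K).comp (poly_conesM 3)

end Pool.Agent.NPC.SC677
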