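import Pool.Agent.H677.SC.Coh

/-!
# The association scheme with five classes on the labelled `3`-subsets
-/

set_option autoImplicit false
set_option linter.unusedSectionVars false

namespace Pool.Agent.H677.SC

open Finset

variable {P : Type} [DecidableEq P] {b b' : Finset P → Prop}

open Classical in
/-- The relation of two points. -/
noncomputable def cl (x y : Pt 3 b) : Fin 6 :=
  if x = y then 0 else if x.T = y.T then 2 else
    if (x.T ∩ y.T).card + 1 = 3 then (if Lab x.T x.A y.T y.A then 1 else 3)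
    else if (x.T ∩ y.T).card = 1 then 4 else 5

theorem cl_congr {x y : Pt 3 b} {x' y' : Pt 3 b'} (h0 : x = y ↔ x' = y')
    (h1 : x.T = y.T ↔ x'.T = y'.T) (h2 : (x.T ∩ y.T).card = (x'.T ∩ y'.T).card)
    (h3 : (x.T ∩ y.T).card + 1 = 3 → (Lab x.T x.A y.T y.A ↔ Lab x'.T x'.A y'.T y'.A)) :
    cl x y = cl x' y' := by
  classical
  unfold cl
  by_cases a0 : x = y
  · rw [if_pos a0, if_pos (h0.1 a0)]
  rw [if_neg a0, if_neg (fun h => a0 (h0.2 h))]
  by_cases a1 : x.T = y.T
  · rw [if_pos a1, if_pos (h1.1 a1)]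
  rw [if_neg a1, if_neg (fun h => a1 (h1.2 h)), ← h2]
  by_cases a2 : (x.T ∩ y.T).card + 1 = 3
  · rw [if_pos a2, if_pos a2]
    have h4 := h3 a2
    by_cases a3 : Lab x.T x.A y.T y.A
    · rw [if_pos a3, if_pos (h4.1 a3)]
    · rw [if_neg a3, if_neg (fun h => a3 (h4.2 h))]
  · rw [if_neg a2, if_neg a2]

theorem inter_lt {x y : Pt 3 b} (h : x.T ≠ y.T) : (x.T ∩ y.T).card ≤ 2 := by
  by_contra h1
  have h4 : x.T ∩ y.T = x.T := eq_of_subset_of_card_le inter_subset_left (by rw [x.hT]; omega)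
  have h5 : x.T ∩ y.T = y.T := eq_of_subset_of_card_le inter_subset_right (by rw [y.hT]; omega)
  exact h (h4.symm.trans h5)

theorem cl_val (x y : Pt 3 b) :
    (x = y ∧ cl x y = 0) ∨ (x ≠ y ∧ x.T = y.T ∧ cl x y = 2) ∨
    (x.T ≠ y.T ∧ (x.T ∩ y.T).card = 2 ∧ Lab x.T x.A y.T y.A ∧ cl x y = 1) ∨
    (x.T ≠ y.T ∧ (x.T ∩ y.T).card = 2 ∧ ¬ Lab x.T x.A y.T y.A ∧ cl x y = 3) ∨
    (x.T ≠ y.T ∧ (x.T ∩ y.T).card = 1 ∧ cl x y = 4) ∨
    (x.T ≠ y.T ∧ (x.T ∩ y.T).card = 0 ∧ cl x y = 5) := by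
  classical
  unfold cl
  by_cases a0 : x = y
  · exact Or.inl ⟨a0, by rw [if_pos a0]⟩
  rw [if_neg a0]
  by_cases a1 : x.T = y.T
  · exact Or.inr (Or.inl ⟨a0, a1, by rw [if_pos a1]⟩)
  rw [if_neg a1]
  have h1 := inter_lt a1
  by_cases a2 : (x.T ∩ y.T).card + 1 = 3
  · rw [if_pos a2]
    by_cases a3 : Lab x.T x.A y.T y.A
    · exact Or.inr (Or.inr (Or.inl ⟨a1, by omega, a3, by rw [if_pos a3]⟩))
    · exact Or.inr (Or.inr (Or.inr (Or.inl ⟨a1, by omega, a3, by rw [if_neg a3]⟩)))
  rw [if_neg a2]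
  by_cases a4 : (x.T ∩ y.T).card = 1
  · exact Or.inr (Or.inr (Or.inr (Or.inr (Or.inl ⟨a1, a4, by rw [if_pos a4]⟩))))
  · exact Or.inr (Or.inr (Or.inr (Or.inr (Or.inr ⟨a1, by omega, by rw [if_neg a4]⟩))))

theorem cl_inv {x y : Pt 3 b} {x' y' : Pt 3 b'} (h : cl x y = cl x' y') :
    (x = y ↔ x' = y') ∧ (x.T = y.T ↔ x'.T = y'.T) ∧ (x.T ∩ y.T).card = (x'.T ∩ y'.T).card ∧
      ((x.T ∩ y.T).card + 1 = 3 → (Lab x.T x.A y.T y.A ↔ Lab x'.T x'.A y'.T y'.A)) := by
  have e : ∀ {c : Finset P → Prop} {x y : Pt 3 c}, x.T = y.T → (x.T ∩ y.T).card = 3 := by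
    intro c x y h
    rw [← h, inter_self, x.hT]
  have e0 : ∀ {c : Finset P → Prop} {x y : Pt 3 c}, x = y → x.T = y.T := fun h => by rw [h]
  have k1 := cl_val x y
  have k2 := cl_val x' y'
  rw [h] at k1
  rcases k1 with k1 | k1 | k1 | k1 | k1 | k1 <;> rcases k2 with k2 | k2 | k2 | k2 | k2 | k2
  · exact ⟨iff_of_true k1.1 k2.1, iff_of_true (e0 k1.1) (e0 k2.1), by
      rw [e (e0 k1.1), e (e0 k2.1)], fun h1 => by rw [e (e0 k1.1)] at h1; omega⟩
  · exact absurd (k1.2.symm.trans k2.2.2) (by decide)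
  · exact absurd (k1.2.symm.trans k2.2.2.2) (by decide)
  · exact absurd (k1.2.symm.trans k2.2.2.2) (by decide)
  · exact absurd (k1.2.symm.trans k2.2.2) (by decide)
  · exact absurd (k1.2.symm.trans k2.2.2) (by decide)
  · exact absurd (k1.2.2.symm.trans k2.2) (by decide)
  · exact ⟨iff_of_false k1.1 k2.1, iff_of_true k1.2.1 k2.2.1, by rw [e k1.2.1, e k2.2.1],
      fun h1 => by rw [e k1.2.1] at h1; omega⟩
  · exact absurd (k1.2.2.symm.trans k2.2.2.2) (by decide)
  · exact absurd (k1.2.2.symm.trans k2.2.2.2) (by decide)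
  · exact absurd (k1.2.2.symm.trans k2.2.2) (by decide)
  · exact absurd (k1.2.2.symm.trans k2.2.2) (by decide)
  · exact absurd (k1.2.2.2.symm.trans k2.2) (by decide)
  · exact absurd (k1.2.2.2.symm.trans k2.2.2) (by decide)
  · exact ⟨iff_of_false (fun h => k1.1 (e0 h)) (fun h => k2.1 (e0 h)), iff_of_false k1.1 k2.1,
      by rw [k1.2.1, k2.2.1], fun _ => iff_of_true k1.2.2.1 k2.2.2.1⟩
  · exact absurd (k1.2.2.2.symm.trans k2.2.2.2) (by decide)
  · exact absurd (k1.2.2.2.symm.trans k2.2.2) (by decide)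
  · exact absurd (k1.2.2.2.symm.trans k2.2.2) (by decide)
  · exact absurd (k1.2.2.2.symm.trans k2.2) (by decide)
  · exact absurd (k1.2.2.2.symm.trans k2.2.2) (by decide)
  · exact absurd (k1.2.2.2.symm.trans k2.2.2.2) (by decide)
  · exact ⟨iff_of_false (fun h => k1.1 (e0 h)) (fun h => k2.1 (e0 h)), iff_of_false k1.1 k2.1,
      by rw [k1.2.1, k2.2.1], fun _ => iff_of_false k1.2.2.1 k2.2.2.1⟩
  · exact absurd (k1.2.2.2.symm.trans k2.2.2) (by decide)
  · exact absurd (k1.2.2.2.symm.trans k2.2.2) (by decide)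
  · exact absurd (k1.2.2.symm.trans k2.2) (by decide)
  · exact absurd (k1.2.2.symm.trans k2.2.2) (by decide)
  · exact absurd (k1.2.2.symm.trans k2.2.2.2) (by decide)
  · exact absurd (k1.2.2.symm.trans k2.2.2.2) (by decide)
  · exact ⟨iff_of_false (fun h => k1.1 (e0 h)) (fun h => k2.1 (e0 h)), iff_of_false k1.1 k2.1,
      by rw [k1.2.1, k2.2.1], fun h1 => by rw [k1.2.1] at h1; omega⟩
  · exact absurd (k1.2.2.symm.trans k2.2.2) (by decide)
  · exact absurd (k1.2.2.symm.trans k2.2) (by decide)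
  · exact absurd (k1.2.2.symm.trans k2.2.2) (by decide)
  · exact absurd (k1.2.2.symm.trans k2.2.2.2) (by decide)
  · exact absurd (k1.2.2.symm.trans k2.2.2.2) (by decide)
  · exact absurd (k1.2.2.symm.trans k2.2.2) (by decide)
  · exact ⟨iff_of_false (fun h => k1.1 (e0 h)) (fun h => k2.1 (e0 h)), iff_of_false k1.1 k2.1,
      by rw [k1.2.1, k2.2.1], fun h1 => by rw [k1.2.1] at h1; omega⟩

theorem cl_comm (x y : Pt 3 b) : cl x y = cl y x :=
  cl_congr eq_comm eq_comm (by rw [inter_comm]) fun _ => lab_comm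

theorem cl_zero {x y : Pt 3 b} : cl x y = 0 ↔ x = y := by
  constructor
  · intro h
    rcases cl_val x y with k | k | k | k | k | k
    · exact k.1
    · exact absurd (h.symm.trans k.2.2) (by decide)
    · exact absurd (h.symm.trans k.2.2.2) (by decide)
    · exact absurd (h.symm.trans k.2.2.2) (by decide)
    · exact absurd (h.symm.trans k.2.2) (by decide)
    · exact absurd (h.symm.trans k.2.2) (by decide)
  · rintro rfl
    rcases cl_val x x with k | k | k | k | k | k
    · exact k.2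
    · exact absurd rfl k.1
    · exact absurd rfl k.1
    · exact absurd rfl k.1
    · exact absurd rfl k.1
    · exact absurd rfl k.1

theorem cl_one {x y : Pt 3 b} : cl x y = 1 ↔ (sg 3 b).Adj x y := by
  rw [sg_adj]
  constructor
  · intro h
    rcases cl_val x y with k | k | k | k | k | k
    · exact absurd (h.symm.trans k.2) (by decide)
    · exact absurd (h.symm.trans k.2.2) (by decide)
    · exact ⟨by omega, k.2.2.1⟩
    · exact absurd (h.symm.trans k.2.2.2) (by decide)
    · exact absurd (h.symm.trans k.2.2) (by decide)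
    · exact absurd (h.symm.trans k.2.2) (by decide)
  · rintro ⟨h1, h2⟩
    have h3 : x.T ≠ y.T := by
      intro h
      rw [← h, inter_self, x.hT] at h1
      omega
    rcases cl_val x y with k | k | k | k | k | k
    · exact absurd (by rw [k.1]) h3
    · exact absurd k.2.1 h3
    · exact k.2.2.2
    · exact absurd h2 k.2.2.1
    · omega
    · omega

/-- The relation is determined by the labels. -/
theorem cl_of_cm {x z : Pt 3 b} {x' z' : Pt 3 b'} (h : Cm x z x' z') : cl x z = cl x' z' := by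
  obtain ⟨h1, h2, h3, h4⟩ := h
  refine cl_congr ?_ (by rw [h1, h2]) (by rw [h1, h2]) h4
  constructor
  · rintro rfl
    have h5 := h3 rfl
    rw [symmDiff_self] at h5
    exact Pt.ext (h1.trans h2.symm) (symmDiff_eq_bot.1 h5.symm)
  · rintro rfl
    have h6 : x.T = z.T := h1.symm.trans h2
    have h5 := h3 h6
    rw [symmDiff_self] at h5
    exact Pt.ext h6 (symmDiff_eq_bot.1 h5)

theorem cl_map {π : P ≃ P} (h : ∀ W : Finset P, W.card = 3 → (b' (W.map π.toEmbedding) ↔ b W))
    (x z : Pt 3 b) : cl (mapPt π h x) (mapPt π h z) = cl x z := by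
  refine cl_congr (mapPt π h).injective.eq_iff ?_ ?_ fun _ => lab_map π _ _ _ _
  · exact (Finset.map_injective _).eq_iff
  · show ((x.T.map π.toEmbedding) ∩ (z.T.map π.toEmbedding)).card = _
    rw [← Finset.map_inter, card_map]

theorem map_symmDiff' {P' : Type} [DecidableEq P'] (π : P ≃ P') (s t : Finset P) :
    (symmDiff s t).map π.toEmbedding = symmDiff (s.map π.toEmbedding) (t.map π.toEmbedding) := by
  rw [symmDiff_def, symmDiff_def, Finset.sup_eq_union, Finset.sup_eq_union, Finset.map_union,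
    Finset.map_sdiff, Finset.map_sdiff]

/-- **Local symmetry for two base points.** -/
theorem exists_local [Fintype P] (x y : Pt 3 b) (x' y' : Pt 3 b') (h : cl x y = cl x' y') :
    ∃ f : Pt 3 b ≃ Pt 3 b', ∀ z, cl x z = cl x' (f z) ∧ cl z y = cl (f z) y' := by
  obtain ⟨h0, h1, h2, h3⟩ := cl_inv h
  -- a permutation
  obtain ⟨π, hT, hU, hD⟩ : ∃ π : P ≃ P, x.T.map π.toEmbedding = x'.T ∧
      y.T.map π.toEmbedding = y'.T ∧ (x.T = y.T → (symmDiff x.A y.A).map π.toEmbedding =
        symmDiff x'.A y'.A) := by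
    by_cases hTU : x.T = y.T
    · have hTU' := h1.1 hTU
      have hsub : symmDiff x.A y.A ⊆ x.T := by
        intro p hp
        rw [mem_symmDiff] at hp
        rcases hp with hp | hp
        · exact x.hA hp.1
        · rw [hTU]
          exact y.hA hp.1
      have hsub' : symmDiff x'.A y'.A ⊆ x'.T := by
        intro p hp
        rw [mem_symmDiff] at hp
        rcases hp with hp | hp
        · exact x'.hA hp.1
        · rw [hTU']
          exact y'.hA hp.1
      have hcard : (symmDiff x.A y.A).card = (symmDiff x'.A y'.A).card := by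
        have e1 : ¬ Odd (symmDiff x.A y.A).card := by
          rw [odd_card_symmDiff, not_not, x.odd, y.odd, hTU]
        have e2 : ¬ Odd (symmDiff x'.A y'.A).card := by
          rw [odd_card_symmDiff, not_not, x'.odd, y'.odd, hTU']
        have e3 := card_le_card hsub
        have e4 := card_le_card hsub'
        rw [x.hT] at e3
        rw [x'.hT] at e4
        have e5 : (symmDiff x.A y.A).card = 0 ↔ (symmDiff x'.A y'.A).card = 0 := by
          rw [card_eq_zero, card_eq_zero, ← Finset.bot_eq_empty, symmDiff_eq_bot, symmDiff_eq_bot]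
          constructor
          · intro h5
            have h6 := h0.1 (Pt.ext hTU h5)
            rw [h6]
          · intro h5
            have h6 := h0.2 (Pt.ext hTU' h5)
            rw [h6]
        rw [Nat.odd_iff] at e1 e2
        omega
      obtain ⟨π, hX, hY⟩ := exists_perm (X := x.T) (X' := x'.T) (Y := symmDiff x.A y.A)
        (Y' := symmDiff x'.A y'.A) (by rw [x.hT, x'.hT]) hcard (by
          rw [inter_eq_right.2 hsub, inter_eq_right.2 hsub', hcard])
      exact ⟨π, map_eq_of hX, by rw [← hTU, ← hTU', map_eq_of hX], fun _ => map_eq_of hY⟩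
    · obtain ⟨π, hX, hY⟩ := exists_perm (X := x.T) (X' := x'.T) (Y := y.T) (Y' := y'.T)
        (by rw [x.hT, x'.hT]) (by rw [y.hT, y'.hT]) h2
      exact ⟨π, map_eq_of hX, map_eq_of hY, fun h => absurd h hTU⟩
  -- transport
  let b'' : Finset P → Prop := fun W => b' (W.map π.toEmbedding)
  have hb : ∀ W : Finset P, W.card = 3 → (b' (W.map π.toEmbedding) ↔ b'' W) := fun _ _ => Iff.rfl
  let M : Pt 3 b'' ≃ Pt 3 b' := mapPt π hb
  obtain ⟨x₂, hx₂⟩ := M.surjective x'
  obtain ⟨y₂, hy₂⟩ := M.surjective y'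
  have hx₂T : x₂.T = x.T := by
    refine Finset.map_injective π.toEmbedding ?_
    rw [hT, ← hx₂]
    rfl
  have hy₂T : y₂.T = y.T := by
    refine Finset.map_injective π.toEmbedding ?_
    rw [hU, ← hy₂]
    rfl
  have hCm : Cm x y x₂ y₂ := by
    refine ⟨hx₂T, hy₂T, fun h5 => ?_, fun h5 => ?_⟩
    · refine Finset.map_injective π.toEmbedding ?_
      rw [hD h5, map_symmDiff', ← hx₂, ← hy₂]
      rfl
    · rw [h3 h5, ← hx₂, ← hy₂]
      exact lab_map π _ _ _ _
  obtain ⟨f, hf⟩ := exists_equiv (ι := Bool) (K := 3) (by rw [Fintype.card_bool]; omega)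
    (fun i => if i then x else y) (fun i => if i then x₂ else y₂) (by
      intro i j
      cases i <;> cases j
      · exact Cm.self hy₂T
      · exact hCm.symm
      · exact hCm
      · exact Cm.self hx₂T)
  refine ⟨f.trans M, fun z => ⟨?_, ?_⟩⟩
  · have h5 : cl x z = cl x₂ (f z) := cl_of_cm (hf true z)
    rw [h5, ← hx₂]
    exact (cl_map hb _ _).symm
  · have h5 : cl y z = cl y₂ (f z) := cl_of_cm (hf false z)
    rw [cl_comm z y, h5, ← hy₂, cl_comm (M y₂ |> fun _ => (f.trans M) z) (M y₂)]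
    exact (cl_map hb _ _).symm

/-- The numbers of points with given relations to two points. -/
theorem card_local [Fintype P] (x y : Pt 3 b) (x' y' : Pt 3 b') (h : cl x y = cl x' y')
    (i j : Fin 6) : Nat.card {z : Pt 3 b // cl x z = i ∧ cl z y = j} =
      Nat.card {z : Pt 3 b' // cl x' z = i ∧ cl z y' = j} := by
  obtain ⟨f, hf⟩ := exists_local x y x' y' h
  refine Nat.card_congr (f.subtypeEquiv fun z => ?_)
  rw [(hf z).1, (hf z).2]

open Classical in
/-- The intersection numbers. -/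
noncomputable def pnum (m : ℕ) (i j k : Fin 6) : ℕ :=
  if h : ∃ N, ∃ (b : Finset (Fin m) → Prop) (x y : Pt 3 b), cl x y = k ∧
    N = Nat.card {z : Pt 3 b // cl x z = i ∧ cl z y = j} then h.choose else 0

theorem pnum_eq {m : ℕ} {b : Finset (Fin m) → Prop} (x y : Pt 3 b) (i j : Fin 6) :
    Nat.card {z : Pt 3 b // cl x z = i ∧ cl z y = j} = pnum m i j (cl x y) := by
  classical
  unfold pnum
  have h : ∃ N, ∃ (b' : Finset (Fin m) → Prop) (x' y' : Pt 3 b'), cl x' y' = cl x y ∧
      N = Nat.card {z : Pt 3 b' // cl x' z = i ∧ cl z y' = j} := ⟨_, b, x, y, rfl, rfl⟩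
  rw [dif_pos h]
  obtain ⟨b', x', y', h1, h2⟩ := h.choose_spec
  rw [h2]
  exact card_local x y x' y' h1.symm i j

end Pool.Agent.H677.SC
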