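import Pool.Agent.H677.SC.Rec
import Pool.Agent.H677.SC.Scheme

/-!
# The number of points, connectedness, and the relations that occur
-/

set_option autoImplicit false
set_option linter.unusedSectionVars false

namespace Pool.Agent.H677.SC

open Finset

variable {P : Type} [DecidableEq P] {K : ℕ} {b : Finset P → Prop}

/-! ### The number of points -/

open Classical in
theorem card_parity {T : Finset P} {t : P} (ht : t ∈ T) (q : Prop) :
    (T.powerset.filter fun A => (Odd A.card ↔ q)).card = 2 ^ (T.card - 1) := by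
  rw [← card_erase_of_mem ht, ← card_powerset]
  refine Finset.card_bij' (fun A _ => A.erase t) (fun B _ => if (Odd B.card ↔ q) then B else
    insert t B) ?_ ?_ ?_ ?_
  · intro A hA
    rw [mem_filter, mem_powerset] at hA
    rw [mem_powerset]
    exact erase_subset_erase t hA.1
  · intro B hB
    rw [mem_powerset] at hB
    have htB : t ∉ B := fun h => (mem_erase.1 (hB h)).1 rfl
    rw [mem_filter, mem_powerset]
    split_ifs with h
    · exact ⟨hB.trans (erase_subset t T), h⟩
    · refine ⟨insert_subset ht (hB.trans (erase_subset t T)), ?_⟩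
      rw [card_insert_of_notMem htB, Nat.odd_add_one]
      tauto
  · intro A hA
    rw [mem_filter, mem_powerset] at hA
    by_cases htA : t ∈ A
    · have h1 : A.card = (A.erase t).card + 1 := (card_erase_add_one htA).symm
      have h2 : ¬ (Odd (A.erase t).card ↔ q) := by
        have h3 := hA.2
        rw [h1, Nat.odd_add_one] at h3
        tauto
      rw [if_neg h2, insert_erase htA]
    · rw [erase_eq_of_notMem htA, if_pos hA.2]
  · intro B hB
    rw [mem_powerset] at hB
    have htB : t ∉ B := fun h => (mem_erase.1 (hB h)).1 rfl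
    split_ifs with h
    · exact erase_eq_of_notMem htB
    · exact erase_insert htB

/-- The number of points. -/
theorem card_pt [Fintype P] (hK : 1 ≤ K) (b : Finset P → Prop) :
    Nat.card (Pt K b) = 2 ^ (K - 1) * (Fintype.card P).choose K := by
  classical
  let e : Pt K b ≃ Σ T : {T : Finset P // T.card = K}, {A : Finset P // A ∈
      T.1.powerset.filter fun A => (Odd A.card ↔ b T.1)} :=
    { toFun := fun x => ⟨⟨x.T, x.hT⟩, ⟨x.A, mem_filter.2 ⟨mem_powerset.2 x.hA, x.odd⟩⟩⟩
      invFun := fun y => ⟨y.1.1, y.2.1, y.1.2, mem_powerset.1 (mem_filter.1 y.2.2).1,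
        (mem_filter.1 y.2.2).2⟩
      left_inv := fun x => rfl
      right_inv := fun y => rfl }
  rw [Nat.card_congr e, Nat.card_eq_fintype_card, Fintype.card_sigma]
  have h1 : ∀ T : {T : Finset P // T.card = K}, Fintype.card {A : Finset P // A ∈
      T.1.powerset.filter fun A => (Odd A.card ↔ b T.1)} = 2 ^ (K - 1) := by
    intro T
    rw [Fintype.card_coe]
    have h2 : T.1.Nonempty := by
      rw [← card_pos, T.2]
      omega
    obtain ⟨t, ht⟩ := h2
    rw [card_parity ht, T.2]
  rw [Finset.sum_congr rfl fun T _ => h1 T, Finset.sum_const, smul_eq_mul, card_univ,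
    Fintype.card_finset_len, mul_comm]

/-! ### Connectedness -/

/-- The set with one element exchanged. -/
theorem exists_step (hK : 3 ≤ K) (x : Pt K b) {t u : P} (ht : t ∈ x.T) (hu : u ∉ x.T) (q : Prop) :
    ∃ z : Pt K b, z.T = insert u (x.T.erase t) ∧ (x.T ∩ z.T).card + 1 = K ∧
      (Lab x.T x.A z.T z.A ↔ (t ∈ x.A ↔ q)) := by
  have hj : u ∉ x.T.erase t := fun h => hu (mem_erase.1 h).2
  have hne : u ≠ t := fun h => hu (h ▸ ht)
  obtain ⟨z, hz, hl⟩ := exists_nbr (b := b) hK (W := insert u (x.T.erase t)) (by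
    rw [card_insert_of_notMem hj, card_erase_add_one ht, x.hT]) (mem_insert_self _ _) q
  have e1 : x.T ∩ z.T = x.T.erase t := by
    rw [hz]
    ext p
    rw [mem_inter, mem_insert, mem_erase]
    constructor
    · rintro ⟨h1, rfl | h2⟩
      · exact absurd h1 hu
      · exact h2
    · exact fun h1 => ⟨h1.2, Or.inr h1⟩
  have e2 : x.T \ z.T = {t} := by
    rw [hz]
    ext p
    rw [mem_sdiff, mem_insert, mem_erase, mem_singleton]
    constructor
    · rintro ⟨h1, h2⟩
      by_contra h3
      exact h2 (Or.inr ⟨h3, h1⟩)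
    · rintro rfl
      refine ⟨ht, ?_⟩
      rintro (h1 | h1)
      · exact hne h1.symm
      · exact h1.1 rfl
  have e3 : z.T \ x.T = {u} := by
    rw [hz]
    ext p
    rw [mem_sdiff, mem_insert, mem_erase, mem_singleton]
    constructor
    · rintro ⟨h1 | h1, h2⟩
      · exact h1
      · exact absurd h1.2 h2
    · rintro rfl
      exact ⟨Or.inl rfl, hu⟩
  refine ⟨z, hz, ?_, ?_⟩
  · rw [e1, card_erase_add_one ht, x.hT]
  · rw [lab_iff e2 e3, hl]

theorem reach_share [Fintype P] (hK : 3 ≤ K) (hP : K < Fintype.card P) {x y : Pt K b}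
    (hT : x.T = y.T) {i : P} (hi : i ∈ x.T) (hl : i ∈ x.A ↔ i ∈ y.A) :
    (sg K b).Reachable x y := by
  have h1 := many_common hK hT hi hl
  have h2 : 0 < cn x y := by omega
  unfold cn at h2
  have h3 : Nonempty {z : Pt K b // (sg K b).Adj x z ∧ (sg K b).Adj y z} := by
    by_contra h4
    rw [not_nonempty_iff] at h4
    rw [Nat.card_of_isEmpty] at h2
    exact absurd h2 (lt_irrefl 0)
  obtain ⟨z, h4, h5⟩ := h3
  exact h4.reachable.trans h5.reachable.symm

theorem reach_same [Fintype P] (hK : 3 ≤ K) (hP : K < Fintype.card P) {x y : Pt K b}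
    (hT : x.T = y.T) : (sg K b).Reachable x y := by
  classical
  obtain ⟨i, j, hi, hj, hij⟩ : ∃ i j, i ∈ x.T ∧ j ∈ x.T ∧ i ≠ j := by
    have h1 : 1 < x.T.card := by
      rw [x.hT]
      omega
    obtain ⟨i, hi, j, hj, hij⟩ := Finset.one_lt_card.1 h1
    exact ⟨i, j, hi, hj, hij⟩
  obtain ⟨k, hk, hki⟩ : ∃ k ∈ x.T, k ∉ ({i, j} : Finset P) := by
    by_contra h
    push Not at h
    have h1 := card_le_card (show x.T ⊆ {i, j} from h)
    rw [x.hT, card_pair hij] at h1
    omega
  let I₁ : Finset P := ({i, j} : Finset P).filter fun p => (p = i ∧ i ∈ x.A) ∨ (p = j ∧ j ∈ y.A)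
  obtain ⟨Z, hZ, h3, h4⟩ := exists_lab (W := x.T) (I := {i, j}) (I₁ := I₁) ⟨k, hk, hki⟩
    (insert_subset hi (singleton_subset_iff.2 hj)) (filter_subset _ _) (b x.T)
  let z : Pt K b := ⟨x.T, Z, x.hT, hZ, h4⟩
  have h5 : i ∈ x.A ↔ i ∈ z.A := by
    show _ ↔ i ∈ Z
    rw [h3 i (mem_insert_self _ _), mem_filter]
    constructor
    · exact fun h => ⟨mem_insert_self _ _, Or.inl ⟨rfl, h⟩⟩
    · rintro ⟨_, h | h⟩
      · exact h.2
      · exact absurd h.1 hij
  have h6 : j ∈ z.A ↔ j ∈ y.A := by
    show j ∈ Z ↔ _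
    rw [h3 j (mem_insert_of_mem (mem_singleton_self _)), mem_filter]
    constructor
    · rintro ⟨_, h | h⟩
      · exact absurd h.1.symm hij
      · exact h.2
    · exact fun h => ⟨mem_insert_of_mem (mem_singleton_self _), Or.inr ⟨rfl, h⟩⟩
  exact (reach_share hK hP (show x.T = z.T from rfl) hi h5).trans
    (reach_share hK hP (show z.T = y.T from hT) hj h6)

theorem reach_over [Fintype P] (hK : 3 ≤ K) (U : Finset P) (hU : U.card = K) :
    ∀ (n : ℕ) (x : Pt K b), (x.T \ U).card = n → ∃ z : Pt K b, z.T = U ∧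
      (sg K b).Reachable x z := by
  intro n
  induction n with
  | zero =>
    intro x hx
    rw [card_eq_zero, sdiff_eq_empty_iff_subset] at hx
    exact ⟨x, eq_of_subset_of_card_le hx (by rw [x.hT, hU]), SimpleGraph.Reachable.refl x⟩
  | succ n ih =>
    intro x hx
    obtain ⟨t, ht⟩ : (x.T \ U).Nonempty := by
      rw [← card_pos]
      omega
    have h1 : (U \ x.T).card = (x.T \ U).card := by
      have := card_sdiff_add_card_inter U x.T
      have := card_sdiff_add_card_inter x.T U
      rw [inter_comm, x.hT] at this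
      omega
    obtain ⟨u, hu⟩ : (U \ x.T).Nonempty := by
      rw [← card_pos]
      omega
    rw [mem_sdiff] at ht hu
    obtain ⟨y, hy, h2, h3⟩ := exists_step hK x ht.1 hu.2 (t ∈ x.A)
    have hadj : (sg K b).Adj x y := ⟨h2, h3.2 Iff.rfl⟩
    have h4 : y.T \ U = (x.T \ U).erase t := by
      rw [hy]
      ext p
      rw [mem_sdiff, mem_insert, mem_erase, mem_erase, mem_sdiff]
      constructor
      · rintro ⟨rfl | h5, h6⟩
        · exact absurd hu.1 h6
        · exact ⟨h5.1, h5.2, h6⟩
      · rintro ⟨h5, h6, h7⟩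
        exact ⟨Or.inr ⟨h5, h6⟩, h7⟩
    obtain ⟨z, hz, h5⟩ := ih y (by
      rw [h4, card_erase_of_mem (mem_sdiff.2 ht), hx]
      omega)
    exact ⟨z, hz, hadj.reachable.trans h5⟩

theorem sg_connected [Fintype P] (hK : 3 ≤ K) (hP : K < Fintype.card P) :
    (sg K b).Connected := by
  have : Nonempty (Pt K b) := by
    obtain ⟨W, _, hW⟩ := Finset.exists_subset_card_eq (s := (univ : Finset P)) (n := K) (by
      rw [card_univ]
      exact hP.le)
    obtain ⟨z, _⟩ := exists_over hK (b := b) hW
    exact ⟨z⟩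
  refine ⟨fun x y => ?_⟩
  obtain ⟨z, hz, h⟩ := reach_over hK y.T y.hT _ x rfl
  exact h.trans (reach_same hK hP hz)

/-! ### All relations occur -/

theorem cl_surj [Fintype P] (hP : 6 ≤ Fintype.card P) (b : Finset P → Prop) (k : Fin 6) :
    ∃ x y : Pt 3 b, cl x y = k := by
  classical
  obtain ⟨W, _, hW⟩ := Finset.exists_subset_card_eq (s := (univ : Finset P)) (n := 3) (by
    rw [card_univ]
    omega)
  obtain ⟨x, hx⟩ := exists_over (le_refl 3) (b := b) hW
  obtain ⟨t, ht⟩ : x.T.Nonempty := by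
    rw [← card_pos, x.hT]
    omega
  have hc : (x.T)ᶜ.card = Fintype.card P - 3 := by rw [card_compl, x.hT]
  obtain ⟨u, hu⟩ : (x.T)ᶜ.Nonempty := by
    rw [← card_pos, hc]
    omega
  rw [mem_compl] at hu
  have hval : ∀ k : Fin 6, k = 0 ∨ k = 2 ∨ k = 1 ∨ k = 3 ∨ k = 4 ∨ k = 5 := by decide
  rcases hval k with rfl | rfl | rfl | rfl | rfl | rfl
  · exact ⟨x, x, cl_zero.2 rfl⟩
  · obtain ⟨z, hz, h1⟩ := exists_nbr (le_refl 3) (b := b) x.hT ht (t ∉ x.A)
    refine ⟨x, z, ?_⟩
    have hne : x ≠ z := by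
      rintro rfl
      tauto
    rcases cl_val x z with h | h | h | h | h | h
    · exact absurd h.1 hne
    · exact h.2.2
    · exact absurd hz.symm h.1
    · exact absurd hz.symm h.1
    · exact absurd hz.symm h.1
    · exact absurd hz.symm h.1
  · obtain ⟨y, _, h2, h3⟩ := exists_step (le_refl 3) x ht hu (t ∈ x.A)
    exact ⟨x, y, cl_one.2 ⟨h2, h3.2 Iff.rfl⟩⟩
  · obtain ⟨y, hy, h2, h3⟩ := exists_step (le_refl 3) x ht hu (t ∉ x.A)
    have h4 : ¬ Lab x.T x.A y.T y.A := by tauto
    have h5 : x.T ≠ y.T := by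
      intro h
      rw [← h, inter_self, x.hT] at h2
      omega
    refine ⟨x, y, ?_⟩
    rcases cl_val x y with h | h | h | h | h | h
    · exact absurd (by rw [h.1]) h5
    · exact absurd h.2.1 h5
    · exact absurd h.2.2.1 h4
    · exact h.2.2.2
    · omega
    · omega
  · obtain ⟨V, hV, hVc⟩ := Finset.exists_subset_card_eq (s := (x.T)ᶜ) (n := 2) (by
      rw [hc]
      omega)
    have htV : t ∉ V := fun h => mem_compl.1 (hV h) ht
    obtain ⟨y, hy⟩ := exists_over (le_refl 3) (b := b) (W := insert t V) (by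
      rw [card_insert_of_notMem htV, hVc])
    have h1 : x.T ∩ y.T = {t} := by
      rw [hy]
      ext p
      rw [mem_inter, mem_insert, mem_singleton]
      constructor
      · rintro ⟨h1, h2 | h2⟩
        · exact h2
        · exact absurd h1 (mem_compl.1 (hV h2))
      · rintro rfl
        exact ⟨ht, Or.inl rfl⟩
    have h2 : (x.T ∩ y.T).card = 1 := by rw [h1, card_singleton]
    have h5 : x.T ≠ y.T := by
      intro h
      rw [← h, inter_self, x.hT] at h2
      omega
    refine ⟨x, y, ?_⟩
    rcases cl_val x y with h | h | h | h | h | h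
    · exact absurd (by rw [h.1]) h5
    · exact absurd h.2.1 h5
    · omega
    · omega
    · exact h.2.2
    · omega
  · obtain ⟨V, hV, hVc⟩ := Finset.exists_subset_card_eq (s := (x.T)ᶜ) (n := 3) (by
      rw [hc]
      omega)
    obtain ⟨y, hy⟩ := exists_over (le_refl 3) (b := b) hVc
    have h1 : x.T ∩ y.T = ∅ := by
      rw [hy]
      ext p
      rw [mem_inter]
      exact iff_of_false (fun h => mem_compl.1 (hV h.2) h.1) (notMem_empty p)
    have h2 : (x.T ∩ y.T).card = 0 := by rw [h1, card_empty]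
    have h5 : x.T ≠ y.T := by
      intro h
      rw [← h, inter_self, x.hT] at h2
      omega
    refine ⟨x, y, ?_⟩
    rcases cl_val x y with h | h | h | h | h | h
    · exact absurd (by rw [h.1]) h5
    · exact absurd h.2.1 h5
    · omega
    · omega
    · omega
    · exact h.2.2

end Pool.Agent.H677.SC
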