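import Pool.Agent.H677.SC.Enc
import Pool.Agent.H677.JK.Graph

/-!
# The encoding on numbered points
-/

set_option autoImplicit false
set_option linter.unusedSectionVars false

namespace Pool.Agent.H677.SC

open Finset Pool.Agent.H677.JK Pool.Agent.H677.JS

/-- The number of additional points. -/
def ex (K n : ℕ) : ℕ := n + 16 ^ K + 2 * K

/-- The special points. -/
def Qs (K n : ℕ) : Finset (Fin (n + ex K n)) :=
  univ.filter fun p => n ≤ (p : ℕ) ∧ (p : ℕ) < n + (K - 2)

/-- The other points. -/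
def Ds (K n : ℕ) : Finset (Fin (n + ex K n)) := univ.filter fun p => n + (K - 2) ≤ (p : ℕ)

/-- The vertices. -/
def es (K n : ℕ) (v : Fin n) : Fin (n + ex K n) := Fin.castAdd (ex K n) v

/-- The set of a graph. -/
def bs (K : ℕ) {n : ℕ} (G : SimpleGraph (Fin n)) : Finset (Fin (n + ex K n)) → Prop :=
  bG G (es K n) (Qs K n)

/-- The graph of a graph. -/
abbrev GS (K : ℕ) {n : ℕ} (G : SimpleGraph (Fin n)) : SimpleGraph (Pt K (bs K G)) := sg K (bs K G)

theorem card_filter_fin (m a c : ℕ) (h : a + c ≤ m) :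
    ((univ : Finset (Fin m)).filter fun p : Fin m => a ≤ (p : ℕ) ∧ (p : ℕ) < a + c).card = c := by
  have h1 : ((univ : Finset (Fin m)).filter fun p : Fin m => a ≤ (p : ℕ) ∧ (p : ℕ) < a + c) =
      (univ : Finset (Fin c)).map ⟨fun i : Fin c => (⟨a + i, by have := i.isLt; omega⟩ : Fin m),
        fun i j hij => by
          have := congrArg (fun x : Fin m => (x : ℕ)) hij
          simp only at this
          exact Fin.ext (by omega)⟩ := by
    ext p
    simp only [mem_filter, mem_univ, true_and, mem_map, Function.Embedding.coeFn_mk]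
    constructor
    · rintro ⟨h2, h3⟩
      exact ⟨⟨(p : ℕ) - a, by omega⟩, Fin.ext (by simp only; omega)⟩
    · rintro ⟨i, rfl⟩
      have := i.isLt
      simp only
      omega
  rw [h1, card_map, card_univ, Fintype.card_fin]

theorem dat (K n : ℕ) (hK : 3 ≤ K) : Dat K (es K n) (Qs K n) := by
  refine ⟨fun u w h => Fin.castAdd_injective _ _ h, fun v h => ?_, ?_⟩
  · have h1 := (mem_filter.1 h).2.1
    have h2 : ((es K n v : Fin (n + ex K n)) : ℕ) = v := rfl
    have := v.isLt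
    omega
  · unfold Qs
    have hle : n + (K - 2) ≤ n + ex K n := by
      unfold ex
      generalize 16 ^ K = c
      omega
    rw [card_filter_fin _ n (K - 2) hle]
    omega

theorem mem_Ds {K n : ℕ} (p : Fin (n + ex K n)) (hp : p ∈ Ds K n) :
    p ∉ Qs K n ∧ ∀ v, es K n v ≠ p := by
  have h1 := (mem_filter.1 hp).2
  constructor
  · intro h
    have h2 := (mem_filter.1 h).2.2
    omega
  · rintro v rfl
    have h2 : ((es K n v : Fin (n + ex K n)) : ℕ) = v := rfl
    have := v.isLt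
    omega

theorem card_Ds (K n : ℕ) (hK : 3 ≤ K) : (Qs K n).card + n < (Ds K n).card := by
  have h1 := (dat K n hK).card
  have h2 : (Ds K n) = ((univ : Finset (Fin (n + ex K n))).filter fun p : Fin (n + ex K n) =>
      n + (K - 2) ≤ (p : ℕ) ∧ (p : ℕ) < n + (K - 2) + (ex K n - (K - 2))) := by
    unfold Ds
    ext p
    simp only [mem_filter, mem_univ, true_and]
    have := p.isLt
    have h3 : ex K n = n + 16 ^ K + 2 * K := rfl
    generalize 16 ^ K = c at h3
    omega
  have hle : n + (K - 2) + (ex K n - (K - 2)) ≤ n + ex K n := by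
    unfold ex
    generalize 16 ^ K = c
    omega
  rw [h2, card_filter_fin _ _ _ hle]
  have h16 : 0 < 16 ^ K := by positivity
  generalize (Qs K n).card = q at h1 ⊢
  clear h2 hle
  unfold ex
  generalize 16 ^ K = c at h16 ⊢
  omega

theorem big (K n : ℕ) (hK : 3 ≤ K) : 16 ^ K + K < Fintype.card (Fin (n + ex K n)) := by
  rw [Fintype.card_fin]
  unfold ex
  have h16 : 0 < 16 ^ K := by positivity
  generalize 16 ^ K = c at h16
  omega

/-! ### Isomorphic graphs -/

/-- The bijection of the points. -/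
def liftPt (K : ℕ) {n : ℕ} (φ : Fin n ≃ Fin n) : Fin (n + ex K n) ≃ Fin (n + ex K n) :=
  finSumFinEquiv.symm.trans ((Equiv.sumCongr φ (Equiv.refl _)).trans finSumFinEquiv)

theorem liftPt_es (K : ℕ) {n : ℕ} (φ : Fin n ≃ Fin n) (v : Fin n) :
    liftPt K φ (es K n v) = es K n (φ v) := by
  unfold liftPt es
  simp

theorem liftPt_natAdd (K : ℕ) {n : ℕ} (φ : Fin n ≃ Fin n) (q : Fin (ex K n)) :
    liftPt K φ (Fin.natAdd n q) = Fin.natAdd n q := by
  unfold liftPt
  simp

theorem liftPt_Qs (K : ℕ) {n : ℕ} (φ : Fin n ≃ Fin n) :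
    (Qs K n).map (liftPt K φ).toEmbedding = Qs K n := by
  refine eq_of_subset_of_card_le ?_ (by rw [card_map])
  intro p hp
  rw [mem_map] at hp
  obtain ⟨q, hq, rfl⟩ := hp
  have h1 := (mem_filter.1 hq).2
  show liftPt K φ q ∈ Qs K n
  have h2 : q = Fin.natAdd n ⟨(q : ℕ) - n, by have := q.isLt; omega⟩ := by
    refine Fin.ext ?_
    simp only [Fin.val_natAdd]
    omega
  rw [h2, liftPt_natAdd, ← h2]
  exact hq

theorem GS_lift (K : ℕ) {n : ℕ} {G H : SimpleGraph (Fin n)} (φ : G ≃g H) :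
    Nonempty (GS K G ≃g GS K H) := by
  refine ⟨liftIso (liftPt K φ.toEquiv) fun W _ => ?_⟩
  unfold bs bG
  refine and_congr ?_ ?_
  · rw [← liftPt_Qs K φ.toEquiv, map_subset_map, liftPt_Qs]
  · have hmem : ∀ v, es K n (φ v) ∈ W.map (liftPt K φ.toEquiv).toEmbedding ↔ es K n v ∈ W := by
      intro v
      have h1 : es K n (φ v) = liftPt K φ.toEquiv (es K n v) := (liftPt_es K φ.toEquiv v).symm
      rw [h1, mem_map_equiv, Equiv.symm_apply_apply]
    constructor
    · rintro ⟨u, w, h1, h2, h3⟩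
      obtain ⟨u, rfl⟩ := φ.surjective u
      obtain ⟨w, rfl⟩ := φ.surjective w
      exact ⟨u, w, φ.map_adj_iff.1 h1, (hmem u).1 h2, (hmem w).1 h3⟩
    · rintro ⟨u, w, h1, h2, h3⟩
      exact ⟨φ u, φ w, φ.map_adj_iff.2 h1, (hmem u).2 h2, (hmem w).2 h3⟩

/-! ### The graph is determined -/

theorem GS_recover {K n n' : ℕ} (hK : 3 ≤ K) {G : SimpleGraph (Fin n)} {H : SimpleGraph (Fin n')}
    [Nonempty (Fin n)] [Nonempty (Fin n')]
    (h1 : ∀ v, ∃ w, G.Adj v w) (h1' : ∀ v, ∃ w, H.Adj v w)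
    (h2 : ∀ v, ∃ u w, G.Adj u w ∧ u ≠ v ∧ w ≠ v) (h2' : ∀ v, ∃ u w, H.Adj u w ∧ u ≠ v ∧ w ≠ v)
    (φ : GS K G ≃g GS K H) : Nonempty (G ≃g H) := by
  obtain ⟨π, hπ⟩ := exists_bij hK (big K n hK) (big K n' hK) φ
  have hnn : n = n' := by
    have h3 := Fintype.card_congr π
    rw [Fintype.card_fin, Fintype.card_fin] at h3
    unfold ex at h3
    omega
  subst hnn
  have hQ := card_Ds K n hK
  refine recover_iso (dat K n hK) (dat K n hK) h1 h1' h2 h2' π fun T hT => ?_
  exact b_iso (dat K n hK) (dat K n hK) mem_Ds mem_Ds (by rw [Fintype.card_fin]; exact hQ)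
    (by rw [Fintype.card_fin]; exact hQ) hπ hT

theorem cones_adj (n : ℕ) (G : SimpleGraph (Fin n)) (v : Fin (n + 3)) :
    ∃ w, (cones G 3).Adj v w := by
  obtain ⟨w, _, _, h, _⟩ := cones_deg (le_refl 3) G v
  exact ⟨w, h⟩

theorem cones_avoid (n : ℕ) (G : SimpleGraph (Fin n)) (v : Fin (n + 3)) :
    ∃ u w, (cones G 3).Adj u w ∧ u ≠ v ∧ w ≠ v := by
  have key : ∀ (a b : ℕ), n ≤ a → n ≤ b → (ha : a < n + 3) → (hb : b < n + 3) → a ≠ b →
      (v : ℕ) ≠ a → (v : ℕ) ≠ b → ∃ u w, (cones G 3).Adj u w ∧ u ≠ v ∧ w ≠ v := by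
    intro a b h1 h2 ha hb hab hva hvb
    refine ⟨⟨a, ha⟩, ⟨b, hb⟩, cones_dom G 3 _ _ h1 fun h => hab ?_, fun h => hva ?_,
      fun h => hvb ?_⟩
    · exact congrArg (fun x : Fin (n + 3) => (x : ℕ)) h
    · rw [← h]
    · rw [← h]
  by_cases h1 : (v : ℕ) = n
  · exact key (n + 1) (n + 2) (by omega) (by omega) (by omega) (by omega) (by omega) (by omega)
      (by omega)
  · by_cases h2 : (v : ℕ) = n + 1
    · exact key n (n + 2) (by omega) (by omega) (by omega) (by omega) (by omega) (by omega)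
        (by omega)
    · exact key n (n + 1) (by omega) (by omega) (by omega) (by omega) (by omega) (by omega)
        (by omega)

theorem GS_iff {K n n' : ℕ} (hK : 3 ≤ K) (G : SimpleGraph (Fin n)) (H : SimpleGraph (Fin n')) :
    Nonempty (GS K (cones G 3) ≃g GS K (cones H 3)) ↔ Nonempty (G ≃g H) := by
  constructor
  · rintro ⟨φ⟩
    exact cones_cancel 3 (GS_recover hK (cones_adj n G) (cones_adj n' H) (cones_avoid n G)
      (cones_avoid n' H) φ)
  · rintro ⟨φ⟩
    have hnn : n = n' := by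
      have := Fintype.card_congr φ.toEquiv
      simpa using this
    subst hnn
    obtain ⟨ψ⟩ := cones_lift φ 3
    exact GS_lift K ψ

end Pool.Agent.H677.SC
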