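import Pool.Agent.H677.SC.Pts

/-!
# Local symmetry

The sets `b` and `b'` may be different, but for fewer than `K` base points there is a bijection of
all points that preserves the relations to the base points.
-/

set_option autoImplicit false
set_option linter.unusedSectionVars false

namespace Pool.Agent.H677.SC

open Finset

variable {P : Type} [DecidableEq P] {K : ℕ} {b b' : Finset P → Prop}

/-- The same sets, and the labels are related in the same way. -/
def Cm (x z : Pt K b) (x' z' : Pt K b') : Prop :=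
  x'.T = x.T ∧ z'.T = z.T ∧ (x.T = z.T → symmDiff x.A z.A = symmDiff x'.A z'.A) ∧
    ((x.T ∩ z.T).card + 1 = K → (Lab x.T x.A z.T z.A ↔ Lab x'.T x'.A z'.T z'.A))

theorem Cm.symm {x z : Pt K b} {x' z' : Pt K b'} (h : Cm x z x' z') : Cm z x z' x' :=
  ⟨h.2.1, h.1, fun h1 => by rw [symmDiff_comm, h.2.2.1 h1.symm, symmDiff_comm], fun h1 => by
    rw [lab_comm, h.2.2.2 (by rw [inter_comm]; exact h1), lab_comm]⟩

theorem Cm.self {x : Pt K b} {x' : Pt K b'} (h : x'.T = x.T) : Cm x x x' x' :=
  ⟨h, h, fun _ => by rw [symmDiff_self, symmDiff_self], fun h1 => by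
    rw [inter_self, x.hT] at h1
    omega⟩

theorem exists_equiv' {ι : Type} [Fintype ι] (hι : Fintype.card ι < K) (x : ι → Pt K b)
    (x' : ι → Pt K b') (h : ∀ i j, Cm (x i) (x j) (x' i) (x' j)) :
    ∃ f : Pt K b ≃ Pt K b', (∀ z, (f z).T = z.T) ∧ ∀ i z, Cm (x i) z (x' i) (f z) := by
  have hTT : ∀ i, (x' i).T = (x i).T := fun i => (h i i).1
  have hA' : ∀ i, (x' i).A ⊆ (x i).T := fun i => by
    rw [← hTT i]
    exact (x' i).hA
  have key : ∀ W : {W : Finset P // W.card = K}, ∃ C ⊆ W.1,
      (Odd C.card ↔ ¬ (b W.1 ↔ b' W.1)) ∧ ∀ i, ((x i).T = W.1 → C = symmDiff (x i).A (x' i).A) ∧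
      (((x i).T ∩ W.1).card + 1 = K → Lab (x i).T (symmDiff (x i).A (x' i).A) W.1 C) := by
    intro W
    refine exists_corr hι (fun i => (x i).T) (fun i => symmDiff (x i).A (x' i).A)
      (fun i => (x i).hT) (fun i => ?_) (fun W => ¬ (b W ↔ b' W)) (fun i => ?_) (fun i j hij => ?_)
      (fun i j hij => ?_) W.1 W.2
    · intro p hp
      rw [mem_symmDiff] at hp
      rcases hp with hp | hp
      · exact (x i).hA hp.1
      · exact hA' i hp.1
    · rw [odd_card_symmDiff, (x i).odd, (x' i).odd, hTT i]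
    · have h1 := (h i j).2.2.1 hij
      have h2 : symmDiff (symmDiff (x i).A (x' i).A) (symmDiff (x j).A (x' j).A) = ⊥ := by
        rw [symmDiff_symmDiff_symmDiff_comm, h1, symmDiff_self]
      exact symmDiff_eq_bot.1 h2
    · obtain ⟨t, u, ht, hu⟩ := exists_pair (x i).hT (x j).hT hij
      have h1 := (h i j).2.2.2 hij
      rw [hTT i, hTT j, lab_iff ht hu, lab_iff ht hu] at h1
      rw [lab_iff ht hu, mem_symmDiff, mem_symmDiff]
      tauto
  choose C hC1 hC2 hC3 using key
  have hsub : ∀ (W : {W : Finset P // W.card = K}) (A : Finset P), A ⊆ W.1 →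
      symmDiff A (C W) ⊆ W.1 := by
    intro W A hA p hp
    rw [mem_symmDiff] at hp
    rcases hp with hp | hp
    · exact hA hp.1
    · exact hC1 W hp.1
  refine ⟨⟨fun z => ⟨z.T, symmDiff z.A (C ⟨z.T, z.hT⟩), z.hT, hsub _ _ z.hA, ?_⟩,
    fun z => ⟨z.T, symmDiff z.A (C ⟨z.T, z.hT⟩), z.hT, hsub _ _ z.hA, ?_⟩, fun z => ?_,
    fun z => ?_⟩, fun _ => rfl, fun i z => ⟨hTT i, rfl, fun h1 => ?_, fun h1 => ?_⟩⟩
  · rw [odd_card_symmDiff, z.odd, hC2]
    tauto
  · rw [odd_card_symmDiff, z.odd, hC2]
    tauto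
  · exact Pt.ext rfl (symmDiff_symmDiff_cancel_right _ _)
  · exact Pt.ext rfl (symmDiff_symmDiff_cancel_right _ _)
  · show symmDiff (x i).A z.A = symmDiff (x' i).A (symmDiff z.A (C ⟨z.T, z.hT⟩))
    rw [(hC3 ⟨z.T, z.hT⟩ i).1 h1]
    ext p
    rw [mem_symmDiff, mem_symmDiff, mem_symmDiff, mem_symmDiff]
    tauto
  · show _ ↔ Lab (x' i).T (x' i).A z.T (symmDiff z.A (C ⟨z.T, z.hT⟩))
    obtain ⟨t, u, ht, hu⟩ := exists_pair (x i).hT z.hT h1
    have h2 := (hC3 ⟨z.T, z.hT⟩ i).2 h1
    rw [lab_iff ht hu, mem_symmDiff] at h2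
    rw [hTT i, lab_iff ht hu, lab_iff ht hu, mem_symmDiff]
    tauto

theorem exists_equiv {ι : Type} [Fintype ι] (hι : Fintype.card ι < K) (x : ι → Pt K b)
    (x' : ι → Pt K b') (h : ∀ i j, Cm (x i) (x j) (x' i) (x' j)) :
    ∃ f : Pt K b ≃ Pt K b', ∀ i z, Cm (x i) z (x' i) (f z) := by
  obtain ⟨f, _, hf⟩ := exists_equiv' hι x x' h
  exact ⟨f, hf⟩

/-! ### Bijections of `P` -/

section Map

variable {P' : Type} [DecidableEq P'] {c : Finset P' → Prop}

/-- The image of a point. -/
def mapPt (π : P ≃ P') (h : ∀ W : Finset P, W.card = K → (c (W.map π.toEmbedding) ↔ b W)) :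
    Pt K b ≃ Pt K c where
  toFun x := ⟨x.T.map π.toEmbedding, x.A.map π.toEmbedding, by rw [card_map, x.hT],
    map_subset_map.2 x.hA, by rw [card_map, x.odd, h _ x.hT]⟩
  invFun y := ⟨y.T.map π.symm.toEmbedding, y.A.map π.symm.toEmbedding, by rw [card_map, y.hT],
    map_subset_map.2 y.hA, by
      rw [card_map, y.odd, ← h _ (by rw [card_map, y.hT]), Finset.map_map]
      have h4 : π.symm.toEmbedding.trans π.toEmbedding = Function.Embedding.refl P' := by
        ext x
        exact π.apply_symm_apply x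
      rw [h4, Finset.map_refl]⟩
  left_inv x := by
    have h4 : π.toEmbedding.trans π.symm.toEmbedding = Function.Embedding.refl P := by
      ext x
      exact π.symm_apply_apply x
    refine Pt.ext ?_ ?_
    · show (x.T.map π.toEmbedding).map π.symm.toEmbedding = x.T
      rw [Finset.map_map, h4, Finset.map_refl]
    · show (x.A.map π.toEmbedding).map π.symm.toEmbedding = x.A
      rw [Finset.map_map, h4, Finset.map_refl]
  right_inv x := by
    have h4 : π.symm.toEmbedding.trans π.toEmbedding = Function.Embedding.refl P' := by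
      ext x
      exact π.apply_symm_apply x
    refine Pt.ext ?_ ?_
    · show (x.T.map π.symm.toEmbedding).map π.toEmbedding = x.T
      rw [Finset.map_map, h4, Finset.map_refl]
    · show (x.A.map π.symm.toEmbedding).map π.toEmbedding = x.A
      rw [Finset.map_map, h4, Finset.map_refl]

theorem lab_map (π : P ≃ P') (T A U B : Finset P) :
    Lab (T.map π.toEmbedding) (A.map π.toEmbedding) (U.map π.toEmbedding) (B.map π.toEmbedding) ↔
      Lab T A U B := by
  unfold Lab
  rw [← Finset.map_sdiff, ← Finset.map_sdiff, map_subset_map, map_subset_map]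

/-- A bijection of the sets that respects `b` gives an isomorphism. -/
def liftIso (π : P ≃ P') (h : ∀ W : Finset P, W.card = K → (c (W.map π.toEmbedding) ↔ b W)) :
    sg K b ≃g sg K c where
  toEquiv := mapPt π h
  map_rel_iff' := by
    intro x y
    show ((x.T.map π.toEmbedding ∩ y.T.map π.toEmbedding).card + 1 = K ∧
      Lab (x.T.map π.toEmbedding) (x.A.map π.toEmbedding) (y.T.map π.toEmbedding)
        (y.A.map π.toEmbedding)) ↔ _
    rw [← Finset.map_inter, card_map, lab_map]
    exact Iff.rfl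

end Map

/-! ### Bijections that map two sets to two sets -/

theorem exists_perm [Fintype P] {X Y X' Y' : Finset P} (h1 : X.card = X'.card)
    (h2 : Y.card = Y'.card) (h3 : (X ∩ Y).card = (X' ∩ Y').card) :
    ∃ π : P ≃ P, (∀ p, π p ∈ X' ↔ p ∈ X) ∧ ∀ p, π p ∈ Y' ↔ p ∈ Y := by
  classical
  let κ : Finset P → Finset P → P → Bool × Bool := fun X Y p => (decide (p ∈ X), decide (p ∈ Y))
  have key : ∀ k, Fintype.card {p // κ X Y p = k} = Fintype.card {p // κ X' Y' p = k} := by
    have e : ∀ (X Y : Finset P) (k : Bool × Bool), Fintype.card {p // κ X Y p = k} =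
        (univ.filter fun p => κ X Y p = k).card := fun X Y k => Fintype.card_subtype _
    have e1 : ∀ X Y : Finset P, (univ.filter fun p => κ X Y p = (true, true)) = X ∩ Y := by
      intro X Y
      ext p
      simp [κ]
    have e2 : ∀ X Y : Finset P, (univ.filter fun p => κ X Y p = (true, false)) = X \ Y := by
      intro X Y
      ext p
      simp [κ]
    have e3 : ∀ X Y : Finset P, (univ.filter fun p => κ X Y p = (false, true)) = Y \ X := by
      intro X Y
      ext p
      simp [κ, and_comm]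
    have e4 : ∀ X Y : Finset P, (univ.filter fun p => κ X Y p = (false, false)) = (X ∪ Y)ᶜ := by
      intro X Y
      ext p
      simp [κ]
    have c1 := card_sdiff_add_card_inter X Y
    have c2 := card_sdiff_add_card_inter X' Y'
    have c3 := card_sdiff_add_card_inter Y X
    have c4 := card_sdiff_add_card_inter Y' X'
    have c5 := card_union_add_card_inter X Y
    have c6 := card_union_add_card_inter X' Y'
    have c7 : Y ∩ X = X ∩ Y := inter_comm _ _
    have c8 : Y' ∩ X' = X' ∩ Y' := inter_comm _ _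
    rw [c7] at c3
    rw [c8] at c4
    rintro ⟨k1, k2⟩
    rw [e, e]
    cases k1 <;> cases k2
    · rw [e4, e4, card_compl, card_compl]
      omega
    · rw [e3, e3]
      omega
    · rw [e2, e2]
      omega
    · rw [e1, e1, h3]
  let π : P ≃ P := (Equiv.sigmaFiberEquiv (κ X Y)).symm.trans
    ((Equiv.sigmaCongrRight fun k => Fintype.equivOfCardEq (key k)).trans
      (Equiv.sigmaFiberEquiv (κ X' Y')))
  have hπ : ∀ p, κ X' Y' (π p) = κ X Y p := by
    intro p
    exact (Fintype.equivOfCardEq (key (κ X Y p)) ⟨p, rfl⟩).2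
  refine ⟨π, fun p => ?_, fun p => ?_⟩
  · have := congrArg Prod.fst (hπ p)
    simpa [κ] using this
  · have := congrArg Prod.snd (hπ p)
    simpa [κ] using this

theorem map_eq_of {π : P ≃ P} {X X' : Finset P} (h : ∀ p, π p ∈ X' ↔ p ∈ X) :
    X.map π.toEmbedding = X' := by
  ext p
  rw [mem_map_equiv, ← h, Equiv.apply_symm_apply]

end Pool.Agent.H677.SC
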