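import Pool.Agent.H677.SC.Coh

/-!
# Tuples of fewer than `K` points

The type of a tuple of fewer than `K` points determines how often it can be altered to tuples with
given types, and this number does not depend on `b`.
-/

set_option autoImplicit false
set_option linter.unusedSectionVars false

namespace Pool.Agent.H677.SC

open Finset

variable {P : Type} [DecidableEq P] {K d : ℕ} {b b' : Finset P → Prop}

/-- The pair `x', y'` is related like the pair `x, y` after the bijection `π`. -/
def Rel (π : P ≃ P) (x y : Pt K b) (x' y' : Pt K b') : Prop :=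
  x'.T = x.T.map π.toEmbedding ∧ y'.T = y.T.map π.toEmbedding ∧
    (x.T = y.T → symmDiff x'.A y'.A = (symmDiff x.A y.A).map π.toEmbedding) ∧
    ((x.T ∩ y.T).card + 1 = K → (Lab x.T x.A y.T y.A ↔ Lab x'.T x'.A y'.T y'.A))

theorem Rel.symm {π : P ≃ P} {x y : Pt K b} {x' y' : Pt K b'} (h : Rel π x y x' y') :
    Rel π y x y' x' :=
  ⟨h.2.1, h.1, fun h1 => by rw [symmDiff_comm, h.2.2.1 h1.symm, symmDiff_comm], fun h1 => by
    rw [lab_comm, h.2.2.2 (by rw [inter_comm]; exact h1), lab_comm]⟩

theorem Rel.self {π : P ≃ P} {x : Pt K b} {x' : Pt K b'} (h : x'.T = x.T.map π.toEmbedding) :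
    Rel π x x x' x' :=
  ⟨h, h, fun _ => by rw [symmDiff_self, symmDiff_self]; rfl, fun h1 => by
    rw [inter_self, x.hT] at h1
    omega⟩

theorem map_symmDiffP (π : P ≃ P) (s t : Finset P) :
    (symmDiff s t).map π.toEmbedding = symmDiff (s.map π.toEmbedding) (t.map π.toEmbedding) := by
  rw [symmDiff_def, symmDiff_def, Finset.sup_eq_union, Finset.sup_eq_union, Finset.map_union,
    Finset.map_sdiff, Finset.map_sdiff]

theorem rel_iff_cm {b'' : Finset P → Prop} {π : P ≃ P}
    (hb : ∀ W : Finset P, W.card = K → (b' (W.map π.toEmbedding) ↔ b'' W))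
    (x y : Pt K b) (x₂ y₂ : Pt K b'') :
    Rel π x y (mapPt π hb x₂) (mapPt π hb y₂) ↔ Cm x y x₂ y₂ := by
  unfold Rel Cm
  refine and_congr ?_ (and_congr ?_ (and_congr (imp_congr Iff.rfl ?_) (imp_congr Iff.rfl ?_)))
  · exact (Finset.map_injective π.toEmbedding).eq_iff
  · exact (Finset.map_injective π.toEmbedding).eq_iff
  · show symmDiff (x₂.A.map π.toEmbedding) (y₂.A.map π.toEmbedding) = _ ↔ _
    rw [← map_symmDiffP, (Finset.map_injective π.toEmbedding).eq_iff]
    exact eq_comm
  · refine iff_congr Iff.rfl ?_
    exact lab_map π _ _ _ _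

/-- Tuples of the same type. -/
def Sim (x : Fin d → Pt K b) (x' : Fin d → Pt K b') : Prop :=
  ∃ π : P ≃ P, ∀ i j, Rel π (x i) (x j) (x' i) (x' j)

/-- **Local symmetry.** -/
theorem exists_local_tuple (hd : d < K) {x : Fin d → Pt K b} {x' : Fin d → Pt K b'}
    (h : Sim x x') : ∃ f : Pt K b ≃ Pt K b', ∀ z i,
      Sim (Function.update x i z) (Function.update x' i (f z)) := by
  obtain ⟨π, hπ⟩ := h
  let b'' : Finset P → Prop := fun W => b' (W.map π.toEmbedding)
  have hb : ∀ W : Finset P, W.card = K → (b' (W.map π.toEmbedding) ↔ b'' W) := fun _ _ => Iff.rfl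
  let M : Pt K b'' ≃ Pt K b' := mapPt π hb
  let x₂ : Fin d → Pt K b'' := fun i => M.symm (x' i)
  have hx₂ : ∀ i, M (x₂ i) = x' i := fun i => M.apply_symm_apply _
  obtain ⟨f, hf⟩ := exists_equiv (ι := Fin d) (by rw [Fintype.card_fin]; exact hd) x x₂ (by
    intro i j
    have h1 := hπ i j
    rw [← hx₂ i, ← hx₂ j] at h1
    exact (rel_iff_cm hb _ _ _ _).1 h1)
  have key : ∀ i z, Rel π (x i) z (x' i) (M (f z)) := by
    intro i z
    rw [← hx₂ i]
    exact (rel_iff_cm hb _ _ _ _).2 (hf i z)
  refine ⟨f.trans M, fun z i => ⟨π, fun j k => ?_⟩⟩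
  by_cases hj : j = i
  · subst hj
    rw [Function.update_self, Function.update_self]
    by_cases hk : k = j
    · subst hk
      rw [Function.update_self, Function.update_self]
      exact Rel.self (key k z).2.1
    · rw [Function.update_of_ne hk, Function.update_of_ne hk]
      exact (key k z).symm
  · rw [Function.update_of_ne hj, Function.update_of_ne hj]
    by_cases hk : k = i
    · subst hk
      rw [Function.update_self, Function.update_self]
      exact key j z
    · rw [Function.update_of_ne hk, Function.update_of_ne hk]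
      exact hπ j k

/-! ### The code of a tuple -/

/-- The kinds of the elements of `P`. -/
abbrev Kind (d : ℕ) : Type := (Fin d → Bool) × (Fin d → Fin d → Bool)

/-- The codes. -/
abbrev Data (d K : ℕ) : Type :=
  (Kind d → Fin (K + 1)) × (Fin d → Fin d → Bool) × (Fin d → Fin d → Bool) ×
    (Fin d → Fin d → Bool)

/-- The kind of an element. -/
def kd (x : Fin d → Pt K b) (p : P) : Kind d :=
  (fun i => decide (p ∈ (x i).T), fun i j => decide ((x i).T = (x j).T ∧
    p ∈ symmDiff (x i).A (x j).A))

/-- The kind of the elements that do not belong to any set. -/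
def k0 (d : ℕ) : Kind d := (fun _ => false, fun _ _ => false)

open Classical in
/-- The code of a tuple. -/
noncomputable def code [Fintype P] (x : Fin d → Pt K b) : Data d K :=
  (fun k => if k = k0 d then 0 else ⟨min K (Fintype.card {p // kd x p = k}),
      Nat.lt_succ_of_le (min_le_left _ _)⟩,
    fun i j => decide ((x i).T = (x j).T), fun i j => decide (x i = x j),
    fun i j => decide ((sg K b).Adj (x i) (x j)))

theorem card_kd_le [Fintype P] (x : Fin d → Pt K b) {k : Kind d} (hk : k ≠ k0 d) :
    Fintype.card {p // kd x p = k} ≤ K := by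
  classical
  by_cases hne : Nonempty {p // kd x p = k}
  · obtain ⟨p₀, hp₀⟩ := hne
    have hex : ∃ i, ∀ p, kd x p = k → p ∈ (x i).T := by
      by_cases h1 : ∃ i, k.1 i = true
      · obtain ⟨i, hi⟩ := h1
        refine ⟨i, fun p hp => ?_⟩
        rw [← hp] at hi
        exact of_decide_eq_true hi
      · by_cases h2 : ∃ i j, k.2 i j = true
        · obtain ⟨i, j, hij⟩ := h2
          refine ⟨i, fun p hp => ?_⟩
          rw [← hp] at hij
          have h3 := of_decide_eq_true hij
          have h4 := h3.2
          rw [mem_symmDiff] at h4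
          rcases h4 with h4 | h4
          · exact (x i).hA h4.1
          · rw [h3.1]
            exact (x j).hA h4.1
        · exfalso
          refine hk (Prod.ext ?_ ?_)
          · funext i
            cases h3 : k.1 i with
            | false => rfl
            | true => exact absurd ⟨i, h3⟩ h1
          · funext i j
            cases h3 : k.2 i j with
            | false => rfl
            | true => exact absurd ⟨i, j, h3⟩ h2
    obtain ⟨i, hi⟩ := hex
    refine le_trans ?_ (x i).hT.le
    rw [← Fintype.card_coe]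
    exact Fintype.card_le_of_injective (fun p => ⟨p.1, hi p.1 p.2⟩) fun p q h => by
      have h1 := congrArg Subtype.val h
      exact Subtype.ext h1
  · rw [not_nonempty_iff] at hne
    rw [Fintype.card_eq_zero]
    exact Nat.zero_le K

theorem sum_kd [Fintype P] (x : Fin d → Pt K b) :
    ∑ k : Kind d, Fintype.card {p // kd x p = k} = Fintype.card P := by
  rw [← Fintype.card_sigma]
  exact Fintype.card_congr (Equiv.sigmaFiberEquiv (kd x))

/-- Tuples with the same code have the same type. -/
theorem sim_of_code [Fintype P] {x : Fin d → Pt K b} {x' : Fin d → Pt K b'}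
    (h : code x = code x') : Sim x x' := by
  classical
  have h1 := congrFun (congrArg Prod.fst h)
  have h2 := congrArg (fun c : Data d K => c.2.1) h
  have h4 := congrArg (fun c : Data d K => c.2.2.2) h
  have key : ∀ k, k ≠ k0 d → Fintype.card {p // kd x p = k} = Fintype.card {p // kd x' p = k} := by
    intro k hk
    have h5 := h1 k
    unfold code at h5
    simp only [if_neg hk, Fin.mk.injEq] at h5
    rwa [min_eq_right (card_kd_le x hk), min_eq_right (card_kd_le x' hk)] at h5
  have key' : ∀ k, Fintype.card {p // kd x p = k} = Fintype.card {p // kd x' p = k} := by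
    intro k
    by_cases hk : k = k0 d
    · subst hk
      have h5 := sum_kd x
      have h6 := sum_kd x'
      rw [← Finset.add_sum_erase _ _ (Finset.mem_univ (k0 d))] at h5 h6
      have h7 : ∑ k ∈ (univ : Finset (Kind d)).erase (k0 d), Fintype.card {p // kd x p = k} =
          ∑ k ∈ (univ : Finset (Kind d)).erase (k0 d), Fintype.card {p // kd x' p = k} :=
        Finset.sum_congr rfl fun k hk => key k (mem_erase.1 hk).1
      omega
    · exact key k hk
  let π : P ≃ P := (Equiv.sigmaFiberEquiv (kd x)).symm.trans
    ((Equiv.sigmaCongrRight fun k => Fintype.equivOfCardEq (key' k)).trans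
      (Equiv.sigmaFiberEquiv (kd x')))
  have hπ : ∀ p, kd x' (π p) = kd x p := by
    intro p
    exact (Fintype.equivOfCardEq (key' (kd x p)) ⟨p, rfl⟩).2
  have hT : ∀ i, (x' i).T = (x i).T.map π.toEmbedding := by
    intro i
    refine (map_eq_of fun p => ?_).symm
    have h5 := congrFun (congrArg Prod.fst (hπ p)) i
    exact decide_eq_decide.1 h5
  have hS : ∀ i j, (x i).T = (x j).T ↔ (x' i).T = (x' j).T := by
    intro i j
    have h5 := congrFun (congrFun h2 i) j
    exact decide_eq_decide.1 h5
  refine ⟨π, fun i j => ⟨hT i, hT j, fun h5 => ?_, fun h5 => ?_⟩⟩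
  · refine (map_eq_of fun p => ?_).symm
    have h6 := congrFun (congrFun (congrArg Prod.snd (hπ p)) i) j
    have h7 := decide_eq_decide.1 h6
    constructor
    · exact fun h8 => (h7.1 ⟨(hS i j).1 h5, h8⟩).2
    · exact fun h8 => (h7.2 ⟨h5, h8⟩).2
  · have h6 := congrFun (congrFun h4 i) j
    have h7 := decide_eq_decide.1 h6
    have h8 : ((x' i).T ∩ (x' j).T).card + 1 = K := by
      rw [hT i, hT j, ← Finset.map_inter, card_map]
      exact h5
    rw [sg_adj, sg_adj] at h7
    constructor
    · exact fun h9 => (h7.1 ⟨h5, h9⟩).2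
    · exact fun h9 => (h7.2 ⟨h8, h9⟩).2

/-- Tuples of the same type have the same code. -/
theorem code_of_sim [Fintype P] {x : Fin d → Pt K b} {x' : Fin d → Pt K b'}
    (h : Sim x x') : code x = code x' := by
  classical
  obtain ⟨π, hπ⟩ := h
  have hT : ∀ i, (x' i).T = (x i).T.map π.toEmbedding := fun i => (hπ i i).1
  have hS : ∀ i j, (x i).T = (x j).T ↔ (x' i).T = (x' j).T := by
    intro i j
    rw [hT i, hT j, (Finset.map_injective π.toEmbedding).eq_iff]
  have hm : ∀ i p, π p ∈ (x' i).T ↔ p ∈ (x i).T := by
    intro i p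
    rw [hT i, mem_map_equiv, Equiv.symm_apply_apply]
  have hk : ∀ p, kd x' (π p) = kd x p := by
    intro p
    refine Prod.ext (funext fun i => ?_) (funext fun i => funext fun j => ?_)
    · exact decide_eq_decide.2 (hm i p)
    · refine decide_eq_decide.2 ?_
      constructor
      · rintro ⟨h1, h2⟩
        have h3 := (hS i j).2 h1
        rw [(hπ i j).2.2.1 h3, mem_map_equiv, Equiv.symm_apply_apply] at h2
        exact ⟨h3, h2⟩
      · rintro ⟨h1, h2⟩
        refine ⟨(hS i j).1 h1, ?_⟩
        rw [(hπ i j).2.2.1 h1, mem_map_equiv, Equiv.symm_apply_apply]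
        exact h2
  have hc : ∀ k, Fintype.card {p // kd x p = k} = Fintype.card {p // kd x' p = k} := fun k =>
    Fintype.card_congr (π.subtypeEquiv fun p => by rw [hk p])
  unfold code
  refine Prod.ext (funext fun k => ?_) (Prod.ext (funext fun i => funext fun j => ?_)
    (Prod.ext (funext fun i => funext fun j => ?_) (funext fun i => funext fun j => ?_)))
  · simp only [hc k]
  · exact decide_eq_decide.2 (hS i j)
  · refine decide_eq_decide.2 ?_
    constructor
    · intro h1
      have h2 : (x i).T = (x j).T := by rw [h1]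
      refine Pt.ext ((hS i j).1 h2) ?_
      have h3 := (hπ i j).2.2.1 h2
      rw [h1, symmDiff_self] at h3
      exact symmDiff_eq_bot.1 (h3.trans (Finset.map_empty _))
    · intro h1
      have h2 : (x' i).T = (x' j).T := by rw [h1]
      have h4 := (hS i j).2 h2
      refine Pt.ext h4 ?_
      have h3 := (hπ i j).2.2.1 h4
      rw [h1, symmDiff_self] at h3
      exact symmDiff_eq_bot.1 (Finset.map_eq_empty.1 h3.symm)
  · refine decide_eq_decide.2 ?_
    rw [sg_adj, sg_adj, hT i, hT j, ← Finset.map_inter, card_map, ← hT i, ← hT j]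
    constructor
    · exact fun h1 => ⟨h1.1, ((hπ i j).2.2.2 h1.1).1 h1.2⟩
    · exact fun h1 => ⟨h1.1, ((hπ i j).2.2.2 h1.1).2 h1.2⟩

/-! ### The numbers -/

theorem card_local_tuple [Fintype P] (hd : d < K) {x : Fin d → Pt K b} {x' : Fin d → Pt K b'}
    (h : code x = code x') (q : Fin d → Data d K) :
    Nat.card {z : Pt K b // ∀ i, code (Function.update x i z) = q i} =
      Nat.card {z : Pt K b' // ∀ i, code (Function.update x' i z) = q i} := by
  obtain ⟨f, hf⟩ := exists_local_tuple hd (sim_of_code h)
  refine Nat.card_congr (f.subtypeEquiv fun z => forall_congr' fun i => ?_)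
  rw [code_of_sim (hf z i)]

open Classical in
/-- The numbers. -/
noncomputable def tnum (K d m : ℕ) (k : Data d K) (q : Fin d → Data d K) : ℕ :=
  if h : ∃ N, ∃ (b : Finset (Fin m) → Prop) (x : Fin d → Pt K b), code x = k ∧
    N = Nat.card {z : Pt K b // ∀ i, code (Function.update x i z) = q i} then h.choose else 0

theorem tnum_eq {m : ℕ} (hd : d < K) {b : Finset (Fin m) → Prop} (x : Fin d → Pt K b)
    (q : Fin d → Data d K) :
    Nat.card {z : Pt K b // ∀ i, code (Function.update x i z) = q i} =
      tnum K d m (code x) q := by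
  classical
  unfold tnum
  have h : ∃ N, ∃ (b' : Finset (Fin m) → Prop) (x' : Fin d → Pt K b'), code x' = code x ∧
      N = Nat.card {z : Pt K b' // ∀ i, code (Function.update x' i z) = q i} :=
    ⟨_, b, x, rfl, rfl⟩
  rw [dif_pos h]
  obtain ⟨b', x', h1, h2⟩ := h.choose_spec
  rw [h2]
  exact card_local_tuple hd h1.symm q

end Pool.Agent.H677.SC
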