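import Pool.Agent.H677.SC.Rec

/-!
# The encoding of a graph

`Q` is a set of `K - 2` special points, the vertices of the graph `G` are further points, and there
are many other points.  The set `bG` consists of the sets `Q ∪ {u, w}` with `u` and `w` adjacent.
-/

set_option autoImplicit false
set_option linter.unusedSectionVars false

namespace Pool.Agent.H677.SC

open Finset Pool.Agent.H677.JK

variable {P P' V V' : Type} [DecidableEq P] [DecidableEq P'] [Fintype V] [Fintype V'] {K : ℕ}

/-- The sets of the adjacent pairs. -/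
def bG (G : SimpleGraph V) (e : V → P) (Q : Finset P) (T : Finset P) : Prop :=
  Q ⊆ T ∧ ∃ u w, G.Adj u w ∧ e u ∈ T ∧ e w ∈ T

/-- The data of the encoding. -/
structure Dat (K : ℕ) (e : V → P) (Q : Finset P) : Prop where
  inj : Function.Injective e
  out : ∀ v, e v ∉ Q
  card : Q.card + 2 = K

variable {G : SimpleGraph V} {G' : SimpleGraph V'} {e : V → P} {e' : V' → P'} {Q : Finset P}
  {Q' : Finset P'}

theorem Dat.card_insert (h : Dat K e Q) {u w : V} (huw : u ≠ w) :
    (insert (e u) (insert (e w) Q)).card = K := by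
  have h1 : e u ∉ insert (e w) Q := by
    rw [mem_insert, not_or]
    exact ⟨fun h2 => huw (h.inj h2), h.out u⟩
  rw [card_insert_of_notMem h1, card_insert_of_notMem (h.out w), ← h.card]

theorem bG_iff (h : Dat K e Q) {T : Finset P} (hT : T.card = K) :
    bG G e Q T ↔ ∃ u w, G.Adj u w ∧ T = insert (e u) (insert (e w) Q) := by
  constructor
  · rintro ⟨h1, u, w, huw, hu, hw⟩
    refine ⟨u, w, huw, (eq_of_subset_of_card_le ?_ ?_).symm⟩
    · exact insert_subset hu (insert_subset hw h1)
    · rw [hT, h.card_insert huw.ne]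
  · rintro ⟨u, w, huw, rfl⟩
    exact ⟨fun p hp => mem_insert_of_mem (mem_insert_of_mem hp), u, w, huw, mem_insert_self _ _,
      mem_insert_of_mem (mem_insert_self _ _)⟩

theorem bG_insert (h : Dat K e Q) {u w : V} (huw : u ≠ w) :
    bG G e Q (insert (e u) (insert (e w) Q)) ↔ G.Adj u w := by
  rw [bG_iff h (h.card_insert huw)]
  constructor
  · rintro ⟨u', w', h1, h2⟩
    have key : ∀ v, (e v ∈ insert (e u) (insert (e w) Q) ↔ v = u ∨ v = w) := by
      intro v
      rw [mem_insert, mem_insert, h.inj.eq_iff, h.inj.eq_iff]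
      constructor
      · rintro (h3 | h3 | h3)
        · exact Or.inl h3
        · exact Or.inr h3
        · exact absurd h3 (h.out v)
      · rintro (h3 | h3)
        · exact Or.inl h3
        · exact Or.inr (Or.inl h3)
    have k1 : u' = u ∨ u' = w := (key u').1 (by rw [h2]; exact mem_insert_self _ _)
    have k2 : w' = u ∨ w' = w := (key w').1 (by
      rw [h2]; exact mem_insert_of_mem (mem_insert_self _ _))
    rcases k1 with rfl | rfl <;> rcases k2 with rfl | rfl
    · exact absurd rfl h1.ne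
    · exact h1
    · exact h1.symm
    · exact absurd rfl h1.ne
  · exact fun h1 => ⟨u, w, h1, rfl⟩

/-! ### The set `bG` is determined by its coboundary -/

/-- The number of extensions with odd coboundary. -/
noncomputable def ct (K : ℕ) (b : Finset P → Prop) (T : Finset P) : ℕ :=
  Nat.card {z // z ∉ T ∧ ¬ Full b K (insert z T)}

theorem ct_ge [Fintype P] (h : Dat K e Q) {D : Finset P} (hD : ∀ p ∈ D, p ∉ Q ∧ ∀ v, e v ≠ p)
    {T : Finset P} (hT : T.card = K) (hb : bG G e Q T) : D.card ≤ ct K (bG G e Q) T := by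
  classical
  have h0 : D.card = Nat.card {p // p ∈ D} := by
    rw [Nat.card_eq_fintype_card, Fintype.card_coe]
  have key : ∀ z ∈ D, ∀ T' : Finset P, T'.card = K → bG G e Q T' → z ∉ T' := by
    intro z hz T' hT' hb'
    obtain ⟨u, w, _, rfl⟩ := (bG_iff h hT').1 hb'
    rw [mem_insert, mem_insert]
    rintro (h1 | h1 | h1)
    · exact (hD z hz).2 u h1.symm
    · exact (hD z hz).2 w h1.symm
    · exact (hD z hz).1 h1
  rw [h0]
  refine Nat.card_le_card_of_injective (fun z => ⟨z.1, key z.1 z.2 T hT hb, ?_⟩)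
    fun z z' hz => Subtype.ext (Subtype.mk.inj hz)
  have hzT := key z.1 z.2 T hT hb
  have hW : (insert z.1 T).card = K + 1 := by rw [card_insert_of_notMem hzT, hT]
  rw [full_iff hW]
  have h1 : ((insert z.1 T).filter fun i => bG G e Q ((insert z.1 T).erase i)) = {z.1} := by
    ext i
    rw [mem_filter, mem_singleton]
    constructor
    · rintro ⟨h2, h3⟩
      by_contra h4
      refine key z.1 z.2 _ ?_ h3 (mem_erase.2 ⟨fun h5 => h4 h5.symm, mem_insert_self _ _⟩)
      rw [card_erase_of_mem h2, hW]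
      rfl
    · rintro rfl
      refine ⟨mem_insert_self _ _, ?_⟩
      rw [erase_insert hzT]
      exact hb
  rw [h1, card_singleton]
  decide

theorem ct_le [Fintype P] (h : Dat K e Q) {T : Finset P} (hT : T.card = K)
    (hb : ¬ bG G e Q T) : ct K (bG G e Q) T ≤ Q.card + Fintype.card V := by
  classical
  have h0 : Nat.card {p // p ∈ Q ∪ univ.image e} ≤ Q.card + Fintype.card V := by
    rw [Nat.card_eq_fintype_card, Fintype.card_coe]
    exact (card_union_le _ _).trans (Nat.add_le_add_left (card_image_le.trans (by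
      rw [card_univ])) _)
  refine le_trans ?_ h0
  refine Nat.card_le_card_of_injective (fun z => ⟨z.1, ?_⟩)
    fun z z' hz => Subtype.ext (Subtype.mk.inj hz)
  obtain ⟨z, hz, hf⟩ := z
  have hW : (insert z T).card = K + 1 := by rw [card_insert_of_notMem hz, hT]
  rw [full_iff hW] at hf
  obtain ⟨i, hi⟩ : ((insert z T).filter fun i => bG G e Q ((insert z T).erase i)).Nonempty := by
    rw [nonempty_iff_ne_empty]
    intro h1
    apply hf
    rw [h1, card_empty]
    exact Even.zero
  rw [mem_filter] at hi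
  have hne : i ≠ z := by
    rintro rfl
    rw [erase_insert hz] at hi
    exact hb hi.2
  have hc : ((insert z T).erase i).card = K := by
    rw [card_erase_of_mem hi.1, hW]
    rfl
  obtain ⟨u, w, _, he⟩ := (bG_iff h hc).1 hi.2
  have hzm : z ∈ (insert z T).erase i := mem_erase.2 ⟨hne.symm, mem_insert_self _ _⟩
  rw [he, mem_insert, mem_insert] at hzm
  show z ∈ Q ∪ univ.image e
  rw [mem_union, mem_image]
  rcases hzm with h1 | h1 | h1
  · exact Or.inr ⟨u, mem_univ _, h1.symm⟩
  · exact Or.inr ⟨w, mem_univ _, h1.symm⟩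
  · exact Or.inl h1

theorem map_symm_map (π : P ≃ P') (W : Finset P) :
    (W.map π.toEmbedding).map π.symm.toEmbedding = W := by
  have h4 : π.toEmbedding.trans π.symm.toEmbedding = Function.Embedding.refl P := by
    ext x
    exact π.symm_apply_apply x
  rw [Finset.map_map, h4, Finset.map_refl]

theorem ct_iso [Fintype P] [Fintype P'] {b : Finset P → Prop} {b' : Finset P' → Prop}
    {φ : sg K b ≃g sg K b'} {π : P ≃ P'} (hπ : ∀ x, (φ x).T = x.T.map π.toEmbedding)
    (T : Finset P) : ct K b' (T.map π.toEmbedding) = ct K b T := by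
  have hπ' : ∀ x, (φ.symm x).T = x.T.map π.symm.toEmbedding := by
    intro x
    have h1 := hπ (φ.symm x)
    rw [RelIso.apply_symm_apply] at h1
    rw [h1, map_symm_map]
  have hfull : ∀ W : Finset P, Full b' K (W.map π.toEmbedding) ↔ Full b K W := by
    intro W
    constructor
    · intro h1
      have h2 := full_iso (φ := φ.symm) (π := π.symm) hπ' h1
      rw [map_symm_map] at h2
      exact h2
    · exact full_iso hπ
  unfold ct
  refine (Nat.card_congr (π.subtypeEquiv fun z => ?_)).symm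
  refine and_congr (not_congr ?_) (not_congr ?_)
  · rw [mem_map_equiv, Equiv.symm_apply_apply]
  · rw [← hfull, Finset.map_insert]
    exact Iff.rfl

theorem b_iso [Fintype P] [Fintype P'] (h : Dat K e Q) (h' : Dat K e' Q') {D : Finset P}
    {D' : Finset P'} (hD : ∀ p ∈ D, p ∉ Q ∧ ∀ v, e v ≠ p)
    (hD' : ∀ p ∈ D', p ∉ Q' ∧ ∀ v, e' v ≠ p) (hc : Q'.card + Fintype.card V' < D.card)
    (hc' : Q.card + Fintype.card V < D'.card)
    {φ : sg K (bG G e Q) ≃g sg K (bG G' e' Q')} {π : P ≃ P'}
    (hπ : ∀ x, (φ x).T = x.T.map π.toEmbedding) {T : Finset P} (hT : T.card = K) :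
    bG G' e' Q' (T.map π.toEmbedding) ↔ bG G e Q T := by
  have hT' : (T.map π.toEmbedding).card = K := by rw [card_map, hT]
  have h1 := ct_iso hπ T
  constructor
  · intro h2
    by_contra h3
    have h4 := ct_ge h' hD' hT' h2
    have h5 := ct_le h hT h3
    omega
  · intro h2
    by_contra h3
    have h4 := ct_ge h hD hT h2
    have h5 := ct_le h' hT' h3
    omega

/-! ### The graph is determined -/

theorem mem_Q_iff (h : Dat K e Q) [Nonempty V] (h1 : ∀ v, ∃ w, G.Adj v w)
    (h2 : ∀ v, ∃ u w, G.Adj u w ∧ u ≠ v ∧ w ≠ v) (p : P) :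
    p ∈ Q ↔ ∀ T : Finset P, T.card = K → bG G e Q T → p ∈ T := by
  constructor
  · exact fun hp T _ hT => hT.1 hp
  · intro hp
    by_contra hpQ
    obtain ⟨u, w, huw, hu, hw⟩ : ∃ u w, G.Adj u w ∧ e u ≠ p ∧ e w ≠ p := by
      by_cases hex : ∃ v, e v = p
      · obtain ⟨v, rfl⟩ := hex
        obtain ⟨u, w, huw, hu, hw⟩ := h2 v
        exact ⟨u, w, huw, fun h3 => hu (h.inj h3), fun h3 => hw (h.inj h3)⟩
      · rw [not_exists] at hex
        obtain ⟨w, hw⟩ := h1 (Classical.arbitrary V)
        exact ⟨_, w, hw, hex _, hex _⟩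
    have h3 := hp _ (h.card_insert huw.ne) ((bG_insert h huw.ne).2 huw)
    rw [mem_insert, mem_insert] at h3
    rcases h3 with h3 | h3 | h3
    · exact hu h3.symm
    · exact hw h3.symm
    · exact hpQ h3

theorem mem_range_iff (h : Dat K e Q) (h1 : ∀ v, ∃ w, G.Adj v w) (p : P) :
    (∃ v, e v = p) ↔ p ∉ Q ∧ ∃ T : Finset P, T.card = K ∧ bG G e Q T ∧ p ∈ T := by
  constructor
  · rintro ⟨v, rfl⟩
    obtain ⟨w, hw⟩ := h1 v
    exact ⟨h.out v, _, h.card_insert hw.ne, (bG_insert h hw.ne).2 hw, mem_insert_self _ _⟩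
  · rintro ⟨hp, T, hT, hb, hpT⟩
    obtain ⟨u, w, _, rfl⟩ := (bG_iff h hT).1 hb
    rw [mem_insert, mem_insert] at hpT
    rcases hpT with h3 | h3 | h3
    · exact ⟨u, h3.symm⟩
    · exact ⟨w, h3.symm⟩
    · exact absurd h3 hp

theorem recover_iso (h : Dat K e Q) (h' : Dat K e' Q') [Nonempty V] [Nonempty V']
    (h1 : ∀ v, ∃ w, G.Adj v w) (h1' : ∀ v, ∃ w, G'.Adj v w)
    (h2 : ∀ v, ∃ u w, G.Adj u w ∧ u ≠ v ∧ w ≠ v) (h2' : ∀ v, ∃ u w, G'.Adj u w ∧ u ≠ v ∧ w ≠ v)
    (π : P ≃ P') (hπ : ∀ T : Finset P, T.card = K →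
      (bG G' e' Q' (T.map π.toEmbedding) ↔ bG G e Q T)) : Nonempty (G ≃g G') := by
  have hπ' : ∀ T : Finset P', T.card = K →
      (bG G e Q (T.map π.symm.toEmbedding) ↔ bG G' e' Q' T) := by
    intro T hT
    rw [← hπ _ (by rw [card_map, hT])]
    have h3 := map_symm_map π.symm T
    rw [Equiv.symm_symm] at h3
    rw [h3]
  have hQ : ∀ p, π p ∈ Q' ↔ p ∈ Q := by
    intro p
    rw [mem_Q_iff h h1 h2, mem_Q_iff h' h1' h2']
    constructor
    · intro h3 T hT hb
      have h4 := h3 (T.map π.toEmbedding) (by rw [card_map, hT]) ((hπ T hT).2 hb)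
      rw [mem_map_equiv, Equiv.symm_apply_apply] at h4
      exact h4
    · intro h3 T hT hb
      have h4 := h3 (T.map π.symm.toEmbedding) (by rw [card_map, hT]) ((hπ' T hT).2 hb)
      rw [mem_map_equiv, Equiv.symm_symm] at h4
      exact h4
  have hR : ∀ p, (∃ v, e' v = π p) ↔ ∃ v, e v = p := by
    intro p
    rw [mem_range_iff (G := G) h h1, mem_range_iff (G := G') h' h1', hQ]
    refine and_congr_right fun _ => ?_
    constructor
    · rintro ⟨T, hT, hb, hp⟩
      refine ⟨T.map π.symm.toEmbedding, by rw [card_map, hT], (hπ' T hT).2 hb, ?_⟩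
      rw [mem_map_equiv, Equiv.symm_symm]
      exact hp
    · rintro ⟨T, hT, hb, hp⟩
      refine ⟨T.map π.toEmbedding, by rw [card_map, hT], (hπ T hT).2 hb, ?_⟩
      rw [mem_map_equiv, Equiv.symm_apply_apply]
      exact hp
  have hσ : ∀ v, ∃ v', e' v' = π (e v) := fun v => (hR (e v)).2 ⟨v, rfl⟩
  choose σ hσ using hσ
  have hinj : Function.Injective σ := by
    intro u w huw
    have h3 : π (e u) = π (e w) := by rw [← hσ u, ← hσ w, huw]
    exact h.inj (π.injective h3)
  have hsurj : Function.Surjective σ := by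
    intro v'
    obtain ⟨p, hp⟩ := π.surjective (e' v')
    obtain ⟨v, hv⟩ := (hR p).1 ⟨v', hp.symm⟩
    refine ⟨v, h'.inj ?_⟩
    rw [hσ v, hv, hp]
  have hmapQ : Q.map π.toEmbedding = Q' := by
    ext p
    rw [mem_map_equiv, ← hQ, Equiv.apply_symm_apply]
  refine ⟨⟨Equiv.ofBijective σ ⟨hinj, hsurj⟩, ?_⟩⟩
  intro u w
  show G'.Adj (σ u) (σ w) ↔ G.Adj u w
  by_cases huw : u = w
  · rw [huw]
    exact iff_of_false (fun h3 => h3.ne rfl) fun h3 => h3.ne rfl
  · have h3 := hπ _ (h.card_insert huw)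
    rw [bG_insert h huw] at h3
    rw [← h3, Finset.map_insert, Finset.map_insert, hmapQ]
    show _ ↔ bG G' e' Q' (insert (π (e u)) (insert (π (e w)) Q'))
    rw [← hσ u, ← hσ w, bG_insert h' fun h4 => huw (hinj h4)]

end Pool.Agent.H677.SC
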