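import Pool.Agent.H677.JK.Recover

/-!
# Labelled subsets

Let `b` be a set of `K`-subsets of `P`.  A point is a `K`-subset `T` with a labelling of its
`(K - 1)`-subsets by `0` and `1`, the sum of which is `1` iff `T` belongs to `b`.  The label of
`T \ {i}` is recorded as the membership of `i` in a subset `A` of `T`.
-/

set_option autoImplicit false
set_option linter.unusedSectionVars false

namespace Pool.Agent.H677.SC

open Finset

variable {P : Type} [DecidableEq P] {K : ℕ}

/-- The points. -/
@[ext] structure Pt (K : ℕ) (b : Finset P → Prop) where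
  T : Finset P
  A : Finset P
  hT : T.card = K
  hA : A ⊆ T
  odd : Odd A.card ↔ b T

instance [Finite P] (b : Finset P → Prop) : Finite (Pt K b) :=
  Finite.of_injective (fun x : Pt K b => (x.T, x.A)) fun x y h => by
    simp only [Prod.mk.injEq] at h
    exact Pt.ext h.1 h.2

/-- The labels of the common `(K - 1)`-subset agree. -/
def Lab (T A U B : Finset P) : Prop := (T \ U ⊆ A ↔ U \ T ⊆ B)

theorem lab_comm {T A U B : Finset P} : Lab T A U B ↔ Lab U B T A :=
  ⟨fun h => h.symm, fun h => h.symm⟩

/-- Two points are adjacent if their sets have a common `(K - 1)`-subset, with the same label. -/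
def sg (K : ℕ) (b : Finset P → Prop) : SimpleGraph (Pt K b) where
  Adj x y := (x.T ∩ y.T).card + 1 = K ∧ Lab x.T x.A y.T y.A
  symm := ⟨fun x y h => ⟨by rw [inter_comm]; exact h.1, lab_comm.1 h.2⟩⟩
  loopless := ⟨fun x h => by
    have h1 := h.1
    rw [inter_self, x.hT] at h1
    omega⟩

theorem sg_adj {b : Finset P → Prop} {x y : Pt K b} :
    (sg K b).Adj x y ↔ (x.T ∩ y.T).card + 1 = K ∧ Lab x.T x.A y.T y.A := Iff.rfl

/-! ### Parity -/

theorem odd_card_symmDiff (s t : Finset P) :
    Odd (symmDiff s t).card ↔ ¬ (Odd s.card ↔ Odd t.card) := by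
  have h1 : (symmDiff s t).card = (s \ t).card + (t \ s).card := by
    rw [symmDiff_def, Finset.sup_eq_union]
    exact card_union_of_disjoint disjoint_sdiff_sdiff
  have h2 := card_sdiff_add_card_inter s t
  have h3 := card_sdiff_add_card_inter t s
  rw [inter_comm t s] at h3
  rw [h1]
  simp only [Nat.odd_iff]
  omega

/-- Labellings with prescribed labels on some places, and with prescribed parity. -/
theorem exists_lab {W I I₁ : Finset P} (hI : ∃ k ∈ W, k ∉ I) (hIW : I ⊆ W) (h1 : I₁ ⊆ I)
    (q : Prop) : ∃ Z ⊆ W, (∀ i ∈ I, i ∈ Z ↔ i ∈ I₁) ∧ (Odd Z.card ↔ q) := by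
  obtain ⟨k, hk, hkI⟩ := hI
  by_cases h : Odd I₁.card ↔ q
  · exact ⟨I₁, h1.trans hIW, fun i _ => Iff.rfl, h⟩
  · refine ⟨insert k I₁, insert_subset hk (h1.trans hIW), fun i hi => ?_, ?_⟩
    · rw [mem_insert]
      constructor
      · rintro (rfl | h2)
        · exact absurd hi hkI
        · exact h2
      · exact Or.inr
    · rw [card_insert_of_notMem fun h2 => hkI (h1 h2)]
      rw [Nat.odd_add_one]
      tauto

/-! ### Two sets with all but one element in common -/

theorem sdiff_eq_singleton {T U : Finset P} (hT : T.card = K) (h : (T ∩ U).card + 1 = K) :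
    ∃ t, T \ U = {t} := by
  rw [← card_eq_one]
  have := card_sdiff_add_card_inter T U
  omega

theorem exists_pair {T U : Finset P} (hT : T.card = K) (hU : U.card = K)
    (h : (T ∩ U).card + 1 = K) : ∃ t u, T \ U = {t} ∧ U \ T = {u} := by
  obtain ⟨t, ht⟩ := sdiff_eq_singleton hT h
  obtain ⟨u, hu⟩ := sdiff_eq_singleton hU (by rw [inter_comm]; exact h)
  exact ⟨t, u, ht, hu⟩

theorem lab_iff {T A U B : Finset P} {t u : P} (ht : T \ U = {t}) (hu : U \ T = {u}) :
    Lab T A U B ↔ (t ∈ A ↔ u ∈ B) := by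
  unfold Lab
  rw [ht, hu, singleton_subset_iff, singleton_subset_iff]

/-- Three sets: if `T` and `U` both meet `W` in `W \ {w}`, then they are equal or this is their
intersection. -/
theorem same_facet {T U W : Finset P} {w : P} (hT : T.card = K) (hU : U.card = K)
    (hW : W.card = K) (h1 : W \ T = {w}) (h2 : W \ U = {w}) (hne : T ≠ U) :
    (T ∩ U).card + 1 = K ∧ T \ W = T \ U ∧ U \ W = U \ T := by
  have hw : w ∈ W := (mem_sdiff.1 (h1 ▸ mem_singleton_self w)).1
  have hwT : w ∉ T := (mem_sdiff.1 (h1 ▸ mem_singleton_self w)).2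
  have hwU : w ∉ U := (mem_sdiff.1 (h2 ▸ mem_singleton_self w)).2
  have e1 : W.erase w ⊆ T ∩ U := by
    intro x hx
    rw [mem_erase] at hx
    rw [mem_inter]
    constructor
    · by_contra h
      have h3 : x ∈ W \ T := mem_sdiff.2 ⟨hx.2, h⟩
      rw [h1, mem_singleton] at h3
      exact hx.1 h3
    · by_contra h
      have h3 : x ∈ W \ U := mem_sdiff.2 ⟨hx.2, h⟩
      rw [h2, mem_singleton] at h3
      exact hx.1 h3
  have e2 : (W.erase w).card + 1 = K := by
    rw [card_erase_add_one hw, hW]
  have e3 : (T ∩ U).card + 1 ≤ K := by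
    by_contra h
    have h4 : T ∩ U = T := eq_of_subset_of_card_le inter_subset_left (by omega)
    have h5 : T ∩ U = U := eq_of_subset_of_card_le inter_subset_right (by omega)
    exact hne (h4.symm.trans h5)
  have e4 := card_le_card e1
  have e5 : W.erase w = T ∩ U := eq_of_subset_of_card_le e1 (by omega)
  refine ⟨by rw [← e5]; exact e2, ?_, ?_⟩
  · ext x
    rw [mem_sdiff, mem_sdiff]
    refine and_congr_right fun hx => not_congr ⟨fun h => ?_, fun h => ?_⟩
    · have h6 : x ∈ W.erase w := mem_erase.2 ⟨fun h7 => hwT (h7 ▸ hx), h⟩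
      rw [e5] at h6
      exact (mem_inter.1 h6).2
    · have h6 : x ∈ T ∩ U := mem_inter.2 ⟨hx, h⟩
      rw [← e5] at h6
      exact (mem_erase.1 h6).2
  · ext x
    rw [mem_sdiff, mem_sdiff]
    refine and_congr_right fun hx => not_congr ⟨fun h => ?_, fun h => ?_⟩
    · have h6 : x ∈ W.erase w := mem_erase.2 ⟨fun h7 => hwU (h7 ▸ hx), h⟩
      rw [e5] at h6
      exact (mem_inter.1 h6).1
    · have h6 : x ∈ T ∩ U := mem_inter.2 ⟨h, hx⟩
      rw [← e5] at h6
      exact (mem_erase.1 h6).2

/-! ### Corrections -/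

/-- Given fewer than `K` base points, with changes `E` of their labels that are compatible with each
other, every `K`-subset has a compatible change of the labels with the prescribed parity. -/
theorem exists_corr {ι : Type} [Fintype ι] (hι : Fintype.card ι < K) (T E : ι → Finset P)
    (hT : ∀ i, (T i).card = K) (hE : ∀ i, E i ⊆ T i) (q : Finset P → Prop)
    (hq : ∀ i, Odd (E i).card ↔ q (T i)) (h1 : ∀ i j, T i = T j → E i = E j)
    (h2 : ∀ i j, (T i ∩ T j).card + 1 = K → Lab (T i) (E i) (T j) (E j))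
    (W : Finset P) (hW : W.card = K) :
    ∃ C ⊆ W, (Odd C.card ↔ q W) ∧ ∀ i, (T i = W → C = E i) ∧
      ((T i ∩ W).card + 1 = K → Lab (T i) (E i) W C) := by
  classical
  by_cases hex : ∃ i, T i = W
  · obtain ⟨i, rfl⟩ := hex
    exact ⟨E i, hE i, hq i, fun j => ⟨fun h => h1 i j h.symm, fun h => h2 j i h⟩⟩
  · rw [not_exists] at hex
    have hs : ∀ i, (T i ∩ W).card + 1 = K → ∃ t w, T i \ W = {t} ∧ W \ T i = {w} :=
      fun i h => exists_pair (hT i) hW h
    let I : Finset P := Finset.univ.biUnion fun i : ι =>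
      if (T i ∩ W).card + 1 = K then W \ T i else ∅
    let I₁ : Finset P := I.filter fun w => ∃ i, (T i ∩ W).card + 1 = K ∧ W \ T i = {w} ∧
      T i \ W ⊆ E i
    have hIW : I ⊆ W := by
      intro x hx
      rw [mem_biUnion] at hx
      obtain ⟨i, _, hx⟩ := hx
      split_ifs at hx with h
      · exact (mem_sdiff.1 hx).1
      · exact absurd hx (notMem_empty x)
    have hIc : I.card < K := by
      refine lt_of_le_of_lt (card_biUnion_le.trans ?_) hι
      refine (Finset.sum_le_card_nsmul _ _ 1 fun i _ => ?_).trans ?_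
      · split_ifs with h
        · obtain ⟨t, w, _, hw⟩ := hs i h
          rw [hw, card_singleton]
        · rw [card_empty]
          exact Nat.zero_le 1
      · rw [smul_eq_mul, mul_one, card_univ]
    obtain ⟨k, hk, hkI⟩ : ∃ k ∈ W, k ∉ I := by
      by_contra h
      push Not at h
      have := card_le_card (show W ⊆ I from h)
      omega
    obtain ⟨C, hC, h3, h4⟩ := exists_lab ⟨k, hk, hkI⟩ hIW (filter_subset _ _ : I₁ ⊆ I) (q W)
    refine ⟨C, hC, h4, fun i => ⟨fun h => absurd h (hex i), fun h => ?_⟩⟩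
    obtain ⟨t, w, ht, hw⟩ := hs i h
    rw [lab_iff ht hw]
    have hwI : w ∈ I := by
      rw [mem_biUnion]
      refine ⟨i, mem_univ i, ?_⟩
      rw [if_pos h, hw]
      exact mem_singleton_self w
    rw [h3 w hwI, mem_filter]
    constructor
    · intro h5
      exact ⟨hwI, i, h, hw, by rw [ht, singleton_subset_iff]; exact h5⟩
    · rintro ⟨_, j, hj, hwj, hE'⟩
      by_cases hij : T i = T j
      · rw [← hij, ← h1 i j hij, ht, singleton_subset_iff] at hE'
        exact hE'
      · obtain ⟨e1, e2, e3⟩ := same_facet (hT i) (hT j) hW hw hwj hij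
        have h6 := h2 i j e1
        have h7 : T i \ W ⊆ E i := by
          rw [e2]
          rw [e3] at hE'
          exact h6.2 hE'
        rw [ht, singleton_subset_iff] at h7
        exact h7

end Pool.Agent.H677.SC
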