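import Pool.Agent.H677.SC.Coh

/-!
# The sets and `b`, up to a coboundary, are determined by the graph
-/

set_option autoImplicit false
set_option linter.unusedSectionVars false

namespace Pool.Agent.H677.SC

open Finset Pool.Agent.H677.JK

variable {P P' : Type} [DecidableEq P] [DecidableEq P'] {K : ℕ} {b : Finset P → Prop}
  {b' : Finset P' → Prop}

/-! ### Common neighbours -/

/-- The number of common neighbours. -/
noncomputable def cn (x y : Pt K b) : ℕ :=
  Nat.card {z : Pt K b // (sg K b).Adj x z ∧ (sg K b).Adj y z}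

/-- The points whose sets are adjacent to a given one. -/
theorem exists_nbr (hK : 3 ≤ K) {b : Finset P → Prop} {W : Finset P} (hW : W.card = K) {w : P}
    (hw : w ∈ W) (q : Prop) : ∃ z : Pt K b, z.T = W ∧ (w ∈ z.A ↔ q) := by
  classical
  obtain ⟨k, hk, hkw⟩ : ∃ k ∈ W, k ≠ w := by
    have h1 : 0 < (W.erase w).card := by
      rw [card_erase_of_mem hw, hW]
      omega
    obtain ⟨k, hk⟩ := Finset.card_pos.1 h1
    exact ⟨k, (mem_erase.1 hk).2, (mem_erase.1 hk).1⟩
  obtain ⟨Z, hZ, h1, h2⟩ := exists_lab (W := W) (I := {w}) (I₁ := if q then {w} else ∅)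
    ⟨k, hk, fun h => hkw (mem_singleton.1 h)⟩ (singleton_subset_iff.2 hw) (by
      split_ifs
      · exact Subset.rfl
      · exact empty_subset _) (b W)
  refine ⟨⟨W, Z, hW, hZ, h2⟩, rfl, ?_⟩
  rw [h1 w (mem_singleton_self w)]
  by_cases hq : q
  · simp [hq]
  · simp [hq]

theorem exists_over (hK : 3 ≤ K) {b : Finset P → Prop} {W : Finset P} (hW : W.card = K) :
    ∃ z : Pt K b, z.T = W := by
  obtain ⟨w, hw⟩ : W.Nonempty := by
    rw [← Finset.card_pos]
    omega
  obtain ⟨z, hz, _⟩ := exists_nbr hK (b := b) hW hw True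
  exact ⟨z, hz⟩

/-- Points with the same set and a common label have many common neighbours. -/
theorem many_common [Fintype P] (hK : 3 ≤ K) {x y : Pt K b} (hT : x.T = y.T) {i : P}
    (hi : i ∈ x.T) (hl : i ∈ x.A ↔ i ∈ y.A) : Fintype.card P - K ≤ cn x y := by
  classical
  have hcard : Fintype.card {j // j ∉ x.T} = Fintype.card P - K := by
    rw [Fintype.card_subtype_compl, Fintype.card_coe, x.hT]
  rw [← hcard, ← Nat.card_eq_fintype_card]
  have key : ∀ j : {j // j ∉ x.T}, ∃ z : Pt K b, z.T = insert j.1 (x.T.erase i) ∧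
      (j.1 ∈ z.A ↔ i ∈ x.A) := by
    intro j
    have hj : j.1 ∉ x.T.erase i := fun h => j.2 (mem_erase.1 h).2
    refine exists_nbr hK ?_ (mem_insert_self _ _) _
    rw [card_insert_of_notMem hj, card_erase_add_one hi, x.hT]
  choose z hz1 hz2 using key
  have hadj : ∀ (y : Pt K b), x.T = y.T → (i ∈ x.A ↔ i ∈ y.A) → ∀ j, (sg K b).Adj y (z j) := by
    intro y hT hl j
    have hj : j.1 ∉ x.T.erase i := fun h => j.2 (mem_erase.1 h).2
    have hne : j.1 ≠ i := fun h => j.2 (h ▸ hi)
    have e1 : y.T ∩ (z j).T = x.T.erase i := by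
      rw [hz1, ← hT]
      ext p
      rw [mem_inter, mem_insert, mem_erase]
      constructor
      · rintro ⟨h1, rfl | h2⟩
        · exact absurd h1 j.2
        · exact h2
      · exact fun h1 => ⟨h1.2, Or.inr h1⟩
    have e2 : y.T \ (z j).T = {i} := by
      rw [hz1, ← hT]
      ext p
      rw [mem_sdiff, mem_insert, mem_erase, mem_singleton]
      constructor
      · rintro ⟨h1, h2⟩
        by_contra h3
        exact h2 (Or.inr ⟨h3, h1⟩)
      · rintro rfl
        refine ⟨hi, ?_⟩
        rintro (h1 | h1)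
        · exact hne h1.symm
        · exact h1.1 rfl
    have e3 : (z j).T \ y.T = {j.1} := by
      rw [hz1, ← hT]
      ext p
      rw [mem_sdiff, mem_insert, mem_erase, mem_singleton]
      constructor
      · rintro ⟨h1 | h1, h2⟩
        · exact h1
        · exact absurd h1.2 h2
      · rintro rfl
        exact ⟨Or.inl rfl, j.2⟩
    refine sg_adj.2 ⟨?_, ?_⟩
    · rw [e1, card_erase_add_one hi, x.hT]
    · rw [lab_iff e2 e3, hz2 j, hl]
  refine Nat.card_le_card_of_injective (fun j => ⟨z j, hadj x rfl Iff.rfl j, hadj y hT hl j⟩)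
    fun j j' h => ?_
  have h1 : z j = z j' := congrArg Subtype.val h
  have h2 : insert j.1 (x.T.erase i) = insert j'.1 (x.T.erase i) := by
    rw [← hz1, ← hz1, h1]
  have h3 : j.1 ∈ insert j'.1 (x.T.erase i) := h2 ▸ mem_insert_self _ _
  rw [mem_insert] at h3
  rcases h3 with h3 | h3
  · exact Subtype.ext h3
  · exact absurd (mem_erase.1 h3).2 j.2

/-- Nonadjacent points with different sets have few common neighbours. -/
theorem few_common {x y : Pt K b} (hT : x.T ≠ y.T) (hxy : ¬ (sg K b).Adj x y) :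
    cn x y ≤ 16 ^ K := by
  classical
  have hWsub : ∀ z : Pt K b, (sg K b).Adj x z → (sg K b).Adj y z → z.T ⊆ x.T ∪ y.T := by
    intro z h1 h2
    obtain ⟨t, w, ht, hw⟩ := exists_pair x.hT z.hT h1.1
    obtain ⟨u, w', hu, hw'⟩ := exists_pair y.hT z.hT h2.1
    have hne : w ≠ w' := by
      rintro rfl
      obtain ⟨e1, e2, e3⟩ := same_facet x.hT y.hT z.hT hw hw' hT
      apply hxy
      refine sg_adj.2 ⟨e1, ?_⟩
      have l1 := (lab_iff ht hw).1 h1.2
      have l2 := (lab_iff hu hw').1 h2.2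
      rw [lab_iff (e2 ▸ ht) (e3 ▸ hu), l1, l2]
    intro p hp
    rw [mem_union]
    by_contra h
    rw [not_or] at h
    have p1 : p ∈ z.T \ x.T := mem_sdiff.2 ⟨hp, h.1⟩
    have p2 : p ∈ z.T \ y.T := mem_sdiff.2 ⟨hp, h.2⟩
    rw [hw, mem_singleton] at p1
    rw [hw', mem_singleton] at p2
    exact hne (p1.symm.trans p2)
  have hcard : Nat.card ((x.T.powerset × y.T.powerset) × (x.T.powerset × y.T.powerset)) =
      16 ^ K := by
    rw [Nat.card_prod, Nat.card_prod, Nat.card_eq_fintype_card, Nat.card_eq_fintype_card,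
      Fintype.card_coe, Fintype.card_coe, card_powerset, card_powerset, x.hT, y.hT,
      ← mul_pow, ← mul_pow]
    norm_num
  rw [← hcard]
  refine Nat.card_le_card_of_injective (fun z => ((⟨x.T \ z.1.T, mem_powerset.2 sdiff_subset⟩,
    ⟨y.T \ z.1.T, mem_powerset.2 sdiff_subset⟩), (⟨z.1.A ∩ x.T, mem_powerset.2 inter_subset_right⟩,
    ⟨z.1.A ∩ y.T, mem_powerset.2 inter_subset_right⟩))) fun z z' h => ?_
  simp only [Prod.mk.injEq, Subtype.mk.injEq] at h
  obtain ⟨⟨h1, h2⟩, h3, h4⟩ := h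
  have s1 := hWsub z.1 z.2.1 z.2.2
  have s2 := hWsub z'.1 z'.2.1 z'.2.2
  refine Subtype.ext (Pt.ext ?_ ?_)
  · ext p
    have g1 : p ∈ x.T \ z.1.T ↔ p ∈ x.T \ z'.1.T := by rw [h1]
    have g2 : p ∈ y.T \ z.1.T ↔ p ∈ y.T \ z'.1.T := by rw [h2]
    rw [mem_sdiff, mem_sdiff] at g1 g2
    constructor
    · intro hp
      rcases mem_union.1 (s1 hp) with h5 | h5
      · by_contra h6
        exact (g1.2 ⟨h5, h6⟩).2 hp
      · by_contra h6
        exact (g2.2 ⟨h5, h6⟩).2 hp
    · intro hp
      rcases mem_union.1 (s2 hp) with h5 | h5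
      · by_contra h6
        exact (g1.1 ⟨h5, h6⟩).2 hp
      · by_contra h6
        exact (g2.1 ⟨h5, h6⟩).2 hp
  · ext p
    have g1 : p ∈ z.1.A ∩ x.T ↔ p ∈ z'.1.A ∩ x.T := by rw [h3]
    have g2 : p ∈ z.1.A ∩ y.T ↔ p ∈ z'.1.A ∩ y.T := by rw [h4]
    rw [mem_inter, mem_inter] at g1 g2
    constructor
    · intro hp
      rcases mem_union.1 (s1 (z.1.hA hp)) with h5 | h5
      · exact (g1.1 ⟨hp, h5⟩).1
      · exact (g2.1 ⟨hp, h5⟩).1
    · intro hp
      rcases mem_union.1 (s2 (z'.1.hA hp)) with h5 | h5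
      · exact (g1.2 ⟨hp, h5⟩).1
      · exact (g2.2 ⟨hp, h5⟩).1

/-- Nonadjacent, with many common neighbours. -/
def Near (x y : Pt K b) : Prop := ¬ (sg K b).Adj x y ∧ 16 ^ K < cn x y

theorem near_of [Fintype P] (hK : 3 ≤ K) (hP : 16 ^ K + K < Fintype.card P) {x y : Pt K b}
    (hT : x.T = y.T) {i : P} (hi : i ∈ x.T) (hl : i ∈ x.A ↔ i ∈ y.A) : Near x y := by
  refine ⟨fun h => ?_, lt_of_lt_of_le ?_ (many_common hK hT hi hl)⟩
  · have h1 := h.1
    rw [← hT, inter_self, x.hT] at h1
    omega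
  · omega

/-- **The points with the same set are determined.** -/
theorem same_iff [Fintype P] (hK : 3 ≤ K) (hP : 16 ^ K + K < Fintype.card P) (x y : Pt K b) :
    x.T = y.T ↔ ∃ z, Near x z ∧ Near z y := by
  classical
  constructor
  · intro hT
    obtain ⟨i, hi⟩ : x.T.Nonempty := by
      rw [← Finset.card_pos, x.hT]
      omega
    obtain ⟨j, hj⟩ : (x.T.erase i).Nonempty := by
      rw [← Finset.card_pos, card_erase_of_mem hi, x.hT]
      omega
    obtain ⟨hji, hj⟩ := mem_erase.1 hj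
    obtain ⟨k, hk⟩ : ((x.T.erase i).erase j).Nonempty := by
      rw [← Finset.card_pos, card_erase_of_mem (mem_erase.2 ⟨hji, hj⟩), card_erase_of_mem hi, x.hT]
      omega
    obtain ⟨hkj, hk⟩ := mem_erase.1 hk
    obtain ⟨hki, hk⟩ := mem_erase.1 hk
    obtain ⟨Z, hZ, h1, h2⟩ := exists_lab (W := x.T) (I := {i, j})
      (I₁ := (({i, j} : Finset P).filter fun p => (p = i ∧ i ∈ x.A) ∨ (p = j ∧ j ∈ y.A)))
      ⟨k, hk, fun h => by
        rw [mem_insert, mem_singleton] at h
        rcases h with h | h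
        · exact hki h
        · exact hkj h⟩
      (insert_subset hi (singleton_subset_iff.2 hj)) (filter_subset _ _) (b x.T)
    let z : Pt K b := ⟨x.T, Z, x.hT, hZ, h2⟩
    have hzi : i ∈ Z ↔ i ∈ x.A := by
      rw [h1 i (mem_insert_self _ _), mem_filter]
      constructor
      · rintro ⟨_, h3 | h3⟩
        · exact h3.2
        · exact absurd h3.1.symm hji
      · exact fun h3 => ⟨mem_insert_self _ _, Or.inl ⟨rfl, h3⟩⟩
    have hzj : j ∈ Z ↔ j ∈ y.A := by
      rw [h1 j (mem_insert_of_mem (mem_singleton_self _)), mem_filter]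
      constructor
      · rintro ⟨_, h3 | h3⟩
        · exact absurd h3.1 hji
        · exact h3.2
      · exact fun h3 => ⟨mem_insert_of_mem (mem_singleton_self _), Or.inr ⟨rfl, h3⟩⟩
    exact ⟨z, near_of hK hP (x := x) (y := z) rfl hi hzi.symm,
      near_of hK hP (x := z) (y := y) hT hj hzj⟩
  · have key : ∀ x y : Pt K b, Near x y → x.T = y.T := by
      intro x y h
      by_contra hT
      exact absurd (few_common hT h.1) (not_le.2 h.2)
    rintro ⟨z, h1, h2⟩
    exact (key x z h1).trans (key z y h2)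

/-! ### Isomorphisms -/

theorem cn_iso (φ : sg K b ≃g sg K b') (x y : Pt K b) : cn (φ x) (φ y) = cn x y := by
  unfold cn
  refine (Nat.card_congr (φ.toEquiv.subtypeEquiv fun z => ?_)).symm
  show _ ↔ (sg K b').Adj (φ x) (φ z) ∧ (sg K b').Adj (φ y) (φ z)
  rw [φ.map_adj_iff, φ.map_adj_iff]

theorem near_iso (φ : sg K b ≃g sg K b') (x y : Pt K b) : Near (φ x) (φ y) ↔ Near x y := by
  unfold Near
  rw [cn_iso, φ.map_adj_iff]

theorem same_iso [Fintype P] [Fintype P'] (hK : 3 ≤ K) (hP : 16 ^ K + K < Fintype.card P)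
    (hP' : 16 ^ K + K < Fintype.card P') (φ : sg K b ≃g sg K b') (x y : Pt K b) :
    (φ x).T = (φ y).T ↔ x.T = y.T := by
  rw [same_iff hK hP', same_iff hK hP]
  constructor
  · rintro ⟨z, h1, h2⟩
    obtain ⟨z, rfl⟩ := φ.surjective z
    exact ⟨z, (near_iso φ _ _).1 h1, (near_iso φ _ _).1 h2⟩
  · rintro ⟨z, h1, h2⟩
    exact ⟨φ z, (near_iso φ _ _).2 h1, (near_iso φ _ _).2 h2⟩

/-- Adjacent sets. -/
theorem jg_iff (hK : 3 ≤ K) (e f : Sb P K) :
    (jg P K).Adj e f ↔ ∃ x y : Pt K b, x.T = e.1 ∧ y.T = f.1 ∧ (sg K b).Adj x y := by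
  constructor
  · intro h
    have h1 : (e.1 ∩ f.1).card + 1 = K := h
    obtain ⟨x, hx⟩ := exists_over hK (b := b) e.2
    obtain ⟨t, u, ht, hu⟩ := exists_pair e.2 f.2 h1
    have huf : u ∈ f.1 := (mem_sdiff.1 (hu ▸ mem_singleton_self u)).1
    obtain ⟨y, hy, hy2⟩ := exists_nbr hK (b := b) f.2 huf (t ∈ x.A)
    refine ⟨x, y, hx, hy, sg_adj.2 ⟨by rw [hx, hy]; exact h1, ?_⟩⟩
    rw [hx, hy, lab_iff ht hu, hy2]
  · rintro ⟨x, y, hx, hy, h⟩
    have h1 := h.1
    rw [hx, hy] at h1
    exact h1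

/-- **An isomorphism comes from a bijection of the sets.** -/
theorem exists_bij [Fintype P] [Fintype P'] (hK : 3 ≤ K) (hP : 16 ^ K + K < Fintype.card P)
    (hP' : 16 ^ K + K < Fintype.card P') (φ : sg K b ≃g sg K b') :
    ∃ π : P ≃ P', ∀ x, (φ x).T = x.T.map π.toEmbedding := by
  have h1 : ∀ e : Sb P K, ∃ x : Pt K b, x.T = e.1 := fun e => exists_over hK e.2
  have h1' : ∀ e : Sb P' K, ∃ x : Pt K b', x.T = e.1 := fun e => exists_over hK e.2
  choose s hs using h1
  choose s' hs' using h1'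
  have key : ∀ x, (φ x).T = (φ (s ⟨x.T, x.hT⟩)).T := fun x =>
    (same_iso hK hP hP' φ _ _).2 (hs ⟨x.T, x.hT⟩).symm
  have key' : ∀ x, (φ.symm x).T = (φ.symm (s' ⟨x.T, x.hT⟩)).T := fun x =>
    (same_iso hK hP' hP φ.symm _ _).2 (hs' ⟨x.T, x.hT⟩).symm
  let ψ : Sb P K ≃ Sb P' K :=
    { toFun := fun e => ⟨(φ (s e)).T, (φ (s e)).hT⟩
      invFun := fun e => ⟨(φ.symm (s' e)).T, (φ.symm (s' e)).hT⟩
      left_inv := fun e => by
        refine Subtype.ext ?_
        show (φ.symm (s' ⟨(φ (s e)).T, (φ (s e)).hT⟩)).T = e.1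
        rw [← key', RelIso.symm_apply_apply, hs]
      right_inv := fun e => by
        refine Subtype.ext ?_
        show (φ (s ⟨(φ.symm (s' e)).T, (φ.symm (s' e)).hT⟩)).T = e.1
        rw [← key, RelIso.apply_symm_apply, hs'] }
  have hψ : ∀ x : Pt K b, (φ x).T = (ψ ⟨x.T, x.hT⟩).1 := key
  let Ψ : jg P K ≃g jg P' K :=
    { toEquiv := ψ
      map_rel_iff' := by
        intro e f
        rw [jg_iff (b := b') hK, jg_iff (b := b) hK]
        constructor
        · rintro ⟨x, y, hx, hy, h⟩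
          obtain ⟨x, rfl⟩ := φ.surjective x
          obtain ⟨y, rfl⟩ := φ.surjective y
          refine ⟨x, y, ?_, ?_, φ.map_adj_iff.1 h⟩
          · have h2 : ψ ⟨x.T, x.hT⟩ = ψ e := Subtype.ext ((hψ x).symm.trans hx)
            exact congrArg Subtype.val (ψ.injective h2)
          · have h2 : ψ ⟨y.T, y.hT⟩ = ψ f := Subtype.ext ((hψ y).symm.trans hy)
            exact congrArg Subtype.val (ψ.injective h2)
        · rintro ⟨x, y, hx, hy, h⟩
          refine ⟨φ x, φ y, ?_, ?_, φ.map_adj_iff.2 h⟩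
          · rw [hψ x]
            exact congrArg (fun e => (ψ e).1) (Subtype.ext hx)
          · rw [hψ y]
            exact congrArg (fun e => (ψ e).1) (Subtype.ext hy) }
  obtain ⟨i, rfl⟩ : ∃ i, K = i + 1 := ⟨K - 1, by omega⟩
  have hle : (i + 1) * i + 2 + i ≤ 16 ^ (i + 1) + (i + 1) := by
    have h3 : ∀ i : ℕ, (i + 1) * i + 2 + i ≤ 16 ^ (i + 1) := by
      intro i
      induction i with
      | zero => norm_num
      | succ i ih =>
        rw [pow_succ]
        nlinarith
    have := h3 i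
    omega
  obtain ⟨π, hπ⟩ := johnson_iso i (hle.trans hP.le) (hle.trans hP'.le) Ψ
  exact ⟨π, fun x => (hψ x).trans (hπ _)⟩

/-! ### Cliques -/

/-- There are pairwise adjacent points on all the `K`-subsets of `W`. -/
def Full (b : Finset P → Prop) (K : ℕ) (W : Finset P) : Prop :=
  ∃ x : {i // i ∈ W} → Pt K b, (∀ i, (x i).T = W.erase i.1) ∧
    ∀ i j, i ≠ j → (sg K b).Adj (x i) (x j)

theorem erase_sdiff_erase {W : Finset P} {i j : P} (hj : j ∈ W) (h : i ≠ j) :
    W.erase i \ W.erase j = {j} := by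
  ext p
  rw [mem_sdiff, mem_erase, mem_erase, mem_singleton]
  constructor
  · rintro ⟨h1, h2⟩
    by_contra h3
    exact h2 ⟨h3, h1.2⟩
  · rintro rfl
    exact ⟨⟨h.symm, hj⟩, fun h1 => h1.1 rfl⟩

theorem card_erase_inter_erase {W : Finset P} (hW : W.card = K + 1) {i j : P} (hi : i ∈ W)
    (hj : j ∈ W) (h : i ≠ j) : (W.erase i ∩ W.erase j).card + 1 = K := by
  have e1 : W.erase i ∩ W.erase j = (W.erase i).erase j := by
    ext p
    simp only [mem_inter, mem_erase]
    tauto
  rw [e1, card_erase_add_one (mem_erase.2 ⟨h.symm, hj⟩), card_erase_of_mem hi, hW]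
  omega

open Classical in
theorem full_iff [Fintype P] {W : Finset P} (hW : W.card = K + 1) :
    Full b K W ↔ Even (W.filter fun i => b (W.erase i)).card := by
  constructor
  · rintro ⟨x, hx, hadj⟩
    have hlab : ∀ i j : {i // i ∈ W}, i ≠ j → (j.1 ∈ (x i).A ↔ i.1 ∈ (x j).A) := by
      intro i j hij
      have hne : i.1 ≠ j.1 := fun h => hij (Subtype.ext h)
      have h1 := (hadj i j hij).2
      rw [hx i, hx j, lab_iff (erase_sdiff_erase j.2 hne) (erase_sdiff_erase i.2 hne.symm)] at h1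
      exact h1
    let R : SimpleGraph {i // i ∈ W} :=
      { Adj := fun i j => i ≠ j ∧ j.1 ∈ (x i).A
        symm := ⟨fun i j h => ⟨h.1.symm, (hlab i j h.1).1 h.2⟩⟩
        loopless := ⟨fun i h => h.1 rfl⟩ }
    have hdeg : ∀ i, R.degree i = (x i).A.card := by
      intro i
      rw [← SimpleGraph.card_neighborFinset_eq_degree]
      refine Finset.card_bij (fun j _ => j.1) (fun j hj => ?_) (fun j _ j' _ h => Subtype.ext h)
        fun p hp => ?_
      · exact ((SimpleGraph.mem_neighborFinset _ _ _).1 hj).2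
      · have h1 := (x i).hA hp
        rw [hx i, mem_erase] at h1
        exact ⟨⟨p, h1.2⟩, (SimpleGraph.mem_neighborFinset _ _ _).2
          ⟨fun h => h1.1 (congrArg Subtype.val h).symm, hp⟩, rfl⟩
    have h1 := R.even_card_odd_degree_vertices
    have h2 : (univ.filter fun v => Odd (R.degree v)).card =
        (W.filter fun i => b (W.erase i)).card := by
      refine Finset.card_bij (fun j _ => j.1) (fun j hj => ?_) (fun j _ j' _ h => Subtype.ext h)
        fun p hp => ?_
      · rw [mem_filter, hdeg, (x j).odd, hx j] at hj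
        exact mem_filter.2 ⟨j.2, hj.2⟩
      · rw [mem_filter] at hp
        refine ⟨⟨p, hp.1⟩, ?_, rfl⟩
        rw [mem_filter, hdeg, (x _).odd, hx _]
        exact ⟨mem_univ _, hp.2⟩
    rw [← h2]
    exact h1
  · intro h
    obtain ⟨w, hw⟩ : W.Nonempty := by
      rw [← Finset.card_pos]
      omega
    have hA : ∀ i : {i // i ∈ W}, ∃ A ⊆ W.erase i.1, (Odd A.card ↔ b (W.erase i.1)) ∧
        ∀ j ∈ W, j ≠ i.1 → (j ∈ A ↔ (i.1 = w ∧ b (W.erase j)) ∨ (j = w ∧ b (W.erase i.1))) := by
      intro i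
      by_cases hi : i.1 = w
      · refine ⟨(W.filter fun j => b (W.erase j)).erase w, ?_, ?_, ?_⟩
        · rw [hi]
          exact erase_subset_erase _ (filter_subset _ _)
        · rw [hi]
          by_cases hb : b (W.erase w)
          · have h3 := card_erase_add_one (mem_filter.2 ⟨hw, hb⟩ :
              w ∈ W.filter fun j => b (W.erase j))
            rw [← h3, Nat.even_add_one, Nat.not_even_iff_odd] at h
            exact iff_of_true h hb
          · have h3 : (W.filter fun j => b (W.erase j)).erase w =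
                W.filter fun j => b (W.erase j) :=
              erase_eq_of_notMem fun h4 => hb (mem_filter.1 h4).2
            rw [h3]
            exact iff_of_false (Nat.not_odd_iff_even.2 h) hb
        · intro j hj hji
          rw [hi] at hji
          rw [mem_erase, mem_filter]
          constructor
          · exact fun h4 => Or.inl ⟨hi, h4.2.2⟩
          · rintro (h4 | h4)
            · exact ⟨hji, hj, h4.2⟩
            · exact absurd h4.1 hji
      · by_cases hb : b (W.erase i.1)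
        · refine ⟨{w}, singleton_subset_iff.2 (mem_erase.2 ⟨fun h4 => hi h4.symm, hw⟩), ?_, ?_⟩
          · rw [card_singleton]
            exact iff_of_true odd_one hb
          · intro j hj hji
            rw [mem_singleton]
            constructor
            · exact fun h4 => Or.inr ⟨h4, hb⟩
            · rintro (h4 | h4)
              · exact absurd h4.1 hi
              · exact h4.1
        · refine ⟨∅, empty_subset _, ?_, ?_⟩
          · rw [card_empty]
            exact iff_of_false (by decide) hb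
          · intro j hj hji
            constructor
            · exact fun h4 => absurd h4 (notMem_empty _)
            · rintro (h4 | h4)
              · exact absurd h4.1 hi
              · exact absurd h4.2 hb
    choose A hA1 hA2 hA3 using hA
    refine ⟨fun i => ⟨W.erase i.1, A i, by rw [card_erase_of_mem i.2, hW]; rfl, hA1 i, hA2 i⟩,
      fun i => rfl, fun i j hij => ?_⟩
    have hne : i.1 ≠ j.1 := fun h => hij (Subtype.ext h)
    refine sg_adj.2 ⟨card_erase_inter_erase hW i.2 j.2 hne, ?_⟩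
    rw [lab_iff (erase_sdiff_erase j.2 hne) (erase_sdiff_erase i.2 hne.symm),
      hA3 i j.1 j.2 hne.symm, hA3 j i.1 i.2 hne]
    tauto

theorem full_iso [Fintype P] [Fintype P'] {φ : sg K b ≃g sg K b'} {π : P ≃ P'}
    (hπ : ∀ x, (φ x).T = x.T.map π.toEmbedding) {W : Finset P} (h : Full b K W) :
    Full b' K (W.map π.toEmbedding) := by
  obtain ⟨x, hx, hadj⟩ := h
  have hmem : ∀ j : {j // j ∈ W.map π.toEmbedding}, π.symm j.1 ∈ W := fun j => by
    have := j.2
    rwa [mem_map_equiv] at this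
  refine ⟨fun j => φ (x ⟨π.symm j.1, hmem j⟩), fun j => ?_, fun i j hij => ?_⟩
  · rw [hπ, hx, Finset.map_erase]
    congr 1
    exact π.apply_symm_apply j.1
  · refine φ.map_adj_iff.2 (hadj _ _ fun h => hij ?_)
    have h1 := congrArg Subtype.val h
    exact Subtype.ext (π.symm.injective h1)

end Pool.Agent.H677.SC
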