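import Pool.Agent.H677.SC.Dim
import Pool.Agent.H677.SC.Props
import Pool.Graph.R_seed8.W185.SRG.Defs

/-!
# The `d`-dimensional Weisfeiler-Leman method on the labelled `K`-subsets
-/

set_option autoImplicit false
set_option linter.unusedSectionVars false

namespace Pool.Agent.H677.SC

open Finset Pool.Agent.W185.SRG

variable {P : Type} [DecidableEq P] [Fintype P] {K d : ℕ} {b b' : Finset P → Prop}

noncomputable instance (b : Finset P → Prop) : Fintype (Pt K b) := Fintype.ofFinite _

/-- The code determines the colour. -/
theorem wl_of_code (hd : d < K) (t : ℕ) : ∀ {x : Fin d → Pt K b} {x' : Fin d → Pt K b'},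
    code x = code x' → wl (sg K b) d t x = wl (sg K b') d t x' := by
  classical
  induction t with
  | zero =>
    intro x x' h
    have h2 := congrArg (fun c : Data d K => c.2.2.1) h
    have h3 := congrArg (fun c : Data d K => c.2.2.2) h
    show isoType (sg K b) d x = isoType (sg K b') d x'
    unfold isoType
    refine Prod.ext (funext fun i => funext fun j => ?_) (funext fun i => funext fun j => ?_)
    · have h4 := congrFun (congrFun h2 i) j
      exact propext (decide_eq_decide.1 h4)
    · have h4 := congrFun (congrFun h3 i) j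
      exact propext (decide_eq_decide.1 h4)
  | succ t ih =>
    intro x x' h
    obtain ⟨f, hf⟩ := exists_local_tuple hd (sim_of_code h)
    refine Prod.ext (ih h) ?_
    show (Finset.univ : Finset (Pt K b)).val.map (fun z => fun i =>
        wl (sg K b) d t (Function.update x i z)) =
      (Finset.univ : Finset (Pt K b')).val.map (fun z => fun i =>
        wl (sg K b') d t (Function.update x' i z))
    have h1 : (Finset.univ : Finset (Pt K b')).val =
        (Finset.univ : Finset (Pt K b)).val.map f := by
      rw [← Finset.map_univ_equiv f]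
      rfl
    rw [h1, Multiset.map_map]
    refine Multiset.map_congr rfl fun z _ => funext fun i => ?_
    exact ih (code_of_sim (hf z i))

/-- Bijections of the tuples. -/
theorem exists_tuple_equiv (b b' : Finset P → Prop) : ∀ j : ℕ, j ≤ K →
    ∃ ψ : (Fin j → Pt K b) ≃ (Fin j → Pt K b'), ∀ x i i', Cm (x i) (x i') (ψ x i) (ψ x i') := by
  intro j
  induction j with
  | zero =>
    intro _
    refine ⟨Equiv.ofUnique _ _, fun x i => i.elim0⟩
  | succ j ih =>
    intro hj
    obtain ⟨ψ, hψ⟩ := ih (by omega)
    have h1 : ∀ x : Fin j → Pt K b, ∃ f : Pt K b ≃ Pt K b', (∀ z, (f z).T = z.T) ∧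
        ∀ i z, Cm (x i) z (ψ x i) (f z) := fun x =>
      exists_equiv' (by rw [Fintype.card_fin]; omega) x (ψ x) (hψ x)
    choose f hf1 hf2 using h1
    let e : ∀ c : Finset P → Prop, (Fin (j + 1) → Pt K c) ≃ (Fin j → Pt K c) × Pt K c := fun c =>
      { toFun := fun x => (fun i => x i.castSucc, x (Fin.last j))
        invFun := fun y => Fin.snoc (α := fun _ => Pt K c) y.1 y.2
        left_inv := fun x => by
          funext i
          refine Fin.lastCases ?_ (fun i => ?_) i
          · simp
          · simp
        right_inv := fun y => by simp }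
    let g : (Fin j → Pt K b) × Pt K b ≃ (Fin j → Pt K b') × Pt K b' :=
      { toFun := fun y => (ψ y.1, f y.1 y.2)
        invFun := fun y => (ψ.symm y.1, (f (ψ.symm y.1)).symm y.2)
        left_inv := fun y => by simp
        right_inv := fun y => by simp }
    refine ⟨((e b).trans g).trans (e b').symm, fun x => ?_⟩
    have hc : ∀ i : Fin j, (((e b).trans g).trans (e b').symm) x i.castSucc =
        ψ (fun i => x i.castSucc) i := by
      intro i
      show Fin.snoc (α := fun _ => Pt K b') _ _ i.castSucc = _
      rw [Fin.snoc_castSucc]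
      rfl
    have hl : (((e b).trans g).trans (e b').symm) x (Fin.last j) =
        f (fun i => x i.castSucc) (x (Fin.last j)) := by
      show Fin.snoc (α := fun _ => Pt K b') _ _ (Fin.last j) = _
      rw [Fin.snoc_last]
      rfl
    intro i i'
    refine Fin.lastCases ?_ (fun i => ?_) i
    · refine Fin.lastCases ?_ (fun i' => ?_) i'
      · rw [hl]
        exact Cm.self (hf1 _ _)
      · rw [hl, hc]
        exact (hf2 _ _ _).symm
    · refine Fin.lastCases ?_ (fun i' => ?_) i'
      · rw [hl, hc]
        exact hf2 _ _ _
      · rw [hc, hc]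
        exact hψ _ _ _

theorem sim_of_cm {x : Fin d → Pt K b} {x' : Fin d → Pt K b'}
    (h : ∀ i j, Cm (x i) (x j) (x' i) (x' j)) : Sim x x' := by
  refine ⟨Equiv.refl P, fun i j => ?_⟩
  have e : ∀ s : Finset P, s.map (Equiv.refl P).toEmbedding = s := fun s => Finset.map_refl
  obtain ⟨h1, h2, h3, h4⟩ := h i j
  exact ⟨by rw [e, h1], by rw [e, h2], fun h5 => by rw [e, h3 h5], h4⟩

/-- The graphs of any two sets are equivalent. -/
theorem wlEquivalent_sg (hd : d < K) (b b' : Finset P → Prop) :
    WLEquivalent d (sg K b) (sg K b') := by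
  obtain ⟨ψ, hψ⟩ := exists_tuple_equiv b b' d hd.le
  exact ⟨ψ, fun t x => wl_of_code hd t (code_of_sim (sim_of_cm (hψ x)))⟩

/-! ### The number of colours -/

/-- The stable colour of a tuple: the colours of all rounds. -/
noncomputable def colour {V : Type} [Fintype V] (G : SimpleGraph V) (d : ℕ) (x : Fin d → V) :
    ∀ t, Col d t := fun t => wl G d t x

/-- The number of the stable colours of the `d`-tuples. -/
noncomputable def numColours {V : Type} [Fintype V] (d : ℕ) (G : SimpleGraph V) : ℕ :=
  (Set.range (colour G d)).ncard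

theorem numColours_sg (hd : d < K) (b : Finset P → Prop) :
    numColours d (sg K b) ≤ Fintype.card (Data d K) := by
  classical
  unfold numColours
  rw [← Nat.card_coe_set_eq, ← Nat.card_eq_fintype_card]
  have h1 : ∀ c : Set.range (colour (sg K b) d), ∃ x, colour (sg K b) d x = c.1 := fun c => c.2
  choose x hx using h1
  refine Nat.card_le_card_of_injective (fun c => code (x c)) fun c c' h => ?_
  refine Subtype.ext ?_
  rw [← hx c, ← hx c']
  funext t
  exact wl_of_code hd t h

/-- For two base points, `K = 3`, the relation determines the colour. -/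
theorem wl_of_cl (t : ℕ) : ∀ {b b' : Finset P → Prop} {x : Fin 2 → Pt 3 b} {x' : Fin 2 → Pt 3 b'},
    cl (x 0) (x 1) = cl (x' 0) (x' 1) → wl (sg 3 b) 2 t x = wl (sg 3 b') 2 t x' := by
  classical
  have h01 : ∀ i : Fin 2, i = 0 ∨ i = 1 := by decide
  induction t with
  | zero =>
    intro b b' x x' h
    show isoType (sg 3 b) 2 x = isoType (sg 3 b') 2 x'
    unfold isoType
    have e1 : x 0 = x 1 ↔ x' 0 = x' 1 := (cl_inv h).1
    have e2 : (sg 3 b).Adj (x 0) (x 1) ↔ (sg 3 b').Adj (x' 0) (x' 1) := by
      rw [← cl_one, ← cl_one, h]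
    refine Prod.ext (funext fun i => funext fun j => ?_) (funext fun i => funext fun j => ?_)
    · refine propext ?_
      rcases h01 i with rfl | rfl <;> rcases h01 j with rfl | rfl
      · exact iff_of_true rfl rfl
      · exact e1
      · exact eq_comm.trans (e1.trans eq_comm)
      · exact iff_of_true rfl rfl
    · refine propext ?_
      rcases h01 i with rfl | rfl <;> rcases h01 j with rfl | rfl
      · exact iff_of_false ((sg 3 b).irrefl) ((sg 3 b').irrefl)
      · exact e2
      · exact (SimpleGraph.adj_comm _ _ _).trans (e2.trans (SimpleGraph.adj_comm _ _ _))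
      · exact iff_of_false ((sg 3 b).irrefl) ((sg 3 b').irrefl)
  | succ t ih =>
    intro b b' x x' h
    obtain ⟨f, hf⟩ := exists_local (x 0) (x 1) (x' 0) (x' 1) h
    refine Prod.ext (ih h) ?_
    show (Finset.univ : Finset (Pt 3 b)).val.map (fun z => fun i =>
        wl (sg 3 b) 2 t (Function.update x i z)) =
      (Finset.univ : Finset (Pt 3 b')).val.map (fun z => fun i =>
        wl (sg 3 b') 2 t (Function.update x' i z))
    have h1 : (Finset.univ : Finset (Pt 3 b')).val =
        (Finset.univ : Finset (Pt 3 b)).val.map f := by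
      rw [← Finset.map_univ_equiv f]
      rfl
    rw [h1, Multiset.map_map]
    refine Multiset.map_congr rfl fun z _ => funext fun i => ?_
    refine ih (x := Function.update x i z) (x' := Function.update x' i (f z)) ?_
    rcases h01 i with rfl | rfl
    · exact (hf z).2
    · exact (hf z).1

theorem numColours_sg_two (b : Finset P → Prop) : numColours 2 (sg 3 b) ≤ 6 := by
  classical
  unfold numColours
  have h6 : (6 : ℕ) = Nat.card (Fin 6) := by rw [Nat.card_eq_fintype_card, Fintype.card_fin]
  rw [← Nat.card_coe_set_eq, h6]
  have h1 : ∀ c : Set.range (colour (sg 3 b) 2), ∃ x, colour (sg 3 b) 2 x = c.1 := fun c => c.2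
  choose x hx using h1
  refine Nat.card_le_card_of_injective (fun c => cl (x c 0) (x c 1)) fun c c' h => ?_
  refine Subtype.ext ?_
  rw [← hx c, ← hx c']
  funext t
  exact wl_of_cl t h

/-! ### Isomorphic graphs -/

theorem wl_iso {V W : Type} [Fintype V] [Fintype W] {G : SimpleGraph V} {H : SimpleGraph W}
    (φ : G ≃g H) (k t : ℕ) : ∀ x : Fin k → V, wl H k t (fun i => φ (x i)) = wl G k t x := by
  classical
  induction t with
  | zero =>
    intro x
    show isoType H k _ = isoType G k x
    unfold isoType
    refine Prod.ext (funext fun i => funext fun j => ?_) (funext fun i => funext fun j => ?_)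
    · exact propext φ.injective.eq_iff
    · exact propext φ.map_adj_iff
  | succ t ih =>
    intro x
    refine Prod.ext (ih x) ?_
    show (Finset.univ : Finset W).val.map (fun z => fun i =>
        wl H k t (Function.update (fun i => φ (x i)) i z)) =
      (Finset.univ : Finset V).val.map (fun z => fun i => wl G k t (Function.update x i z))
    have h1 : (Finset.univ : Finset W).val = (Finset.univ : Finset V).val.map φ.toEquiv := by
      rw [← Finset.map_univ_equiv φ.toEquiv]
      rfl
    rw [h1, Multiset.map_map]
    refine Multiset.map_congr rfl fun z _ => funext fun i => ?_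
    rw [← ih (Function.update x i z)]
    show wl H k t (Function.update (fun i => φ (x i)) i (φ z)) = _
    refine congrArg (wl H k t) (funext fun j => ?_)
    by_cases hj : j = i
    · subst hj
      rw [Function.update_self, Function.update_self]
    · rw [Function.update_of_ne hj, Function.update_of_ne hj]

theorem wlEquivalent_iso {V V' W W' : Type} [Fintype V] [Fintype W] [Fintype V'] [Fintype W']
    {k : ℕ} {G : SimpleGraph V} {H : SimpleGraph W} {G' : SimpleGraph V'} {H' : SimpleGraph W'}
    (φ : G ≃g G') (χ : H ≃g H') (h : WLEquivalent k G' H') : WLEquivalent k G H := by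
  obtain ⟨ψ, hψ⟩ := h
  refine ⟨((Equiv.arrowCongr (Equiv.refl _) φ.toEquiv).trans ψ).trans
    (Equiv.arrowCongr (Equiv.refl _) χ.toEquiv).symm, fun t x => ?_⟩
  rw [← wl_iso φ k t x, ← wl_iso χ k t]
  refine (hψ t _).trans (congrArg (wl H' k t) (funext fun i => ?_))
  exact (χ.apply_symm_apply _).symm

theorem numColours_iso {V W : Type} [Fintype V] [Fintype W] {G : SimpleGraph V}
    {H : SimpleGraph W} (φ : G ≃g H) (k : ℕ) : numColours k G = numColours k H := by
  unfold numColours
  congr 1
  ext c
  constructor
  · rintro ⟨x, rfl⟩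
    exact ⟨fun i => φ (x i), funext fun t => wl_iso φ k t x⟩
  · rintro ⟨x, rfl⟩
    exact ⟨fun i => φ.symm (x i), funext fun t => wl_iso φ.symm k t x⟩

end Pool.Agent.H677.SC
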